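import Pool.Agent.Helper701.Duo.Rec

set_option autoImplicit false

namespace Pool.Agent.Helper701.Duo

theorem xor_split (x r : ℕ) (hr : r < 8) : x ^^^ r = 8 * (x / 8) + ((x % 8) ^^^ r) := by
  have h1 : (x ^^^ r) / 8 = x / 8 := by
    have := Nat.xor_div_two_pow (a := x) (b := r) (n := 3)
    simpa [Nat.div_eq_of_lt hr] using this
  have h2 : (x ^^^ r) % 8 = (x % 8) ^^^ r := by
    have := Nat.xor_mod_two_pow (a := x) (b := r) (n := 3)
    simpa [Nat.mod_eq_of_lt hr] using this
  rw [← h1, ← h2, Nat.div_add_mod]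

theorem xor_shift (x r : ℕ) (hr : r < 8) : (x + 8) ^^^ r = (x ^^^ r) + 8 := by
  rw [xor_split _ _ hr, xor_split x _ hr]
  have h1 : (x + 8) / 8 = x / 8 + 1 := by omega
  have h2 : (x + 8) % 8 = x % 8 := by omega
  rw [h1, h2]
  ring

theorem xor_shift' (x r : ℕ) (hr : r < 8) : r ^^^ (x + 8) = (r ^^^ x) + 8 := by
  rw [Nat.xor_comm, xor_shift _ _ hr, Nat.xor_comm]

def tbv (a c s : ℕ) : ℕ := ((TB.getD a []).getD c []).getD s 0

theorem val_bd {a c m : ℕ} (ha : a ≠ 12) : val a c m = tbv a c (min m 2) := by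
  unfold val tbv
  rw [if_neg ha]

theorem val_bd_congr {a c m m' : ℕ} (ha : a ≠ 12) (h : min m 2 = min m' 2) : val a c m = val a c m' := by
  rw [val_bd ha, val_bd ha, h]

theorem tb_lt : ∀ a < 18, a ≠ 12 → ∀ c < 14, ∀ s < 3, tbv a c s < 8 := by decide +kernel

theorem val_lt8 {a c m : ℕ} (ha : a ≠ 12) (ha' : a < 18) (hc : c < 14) : val a c m < 8 := by
  rw [val_bd ha]
  exact tb_lt a ha' ha c hc _ (by omega)

theorem val_shift {c m : ℕ} (hm : 1 ≤ m) : val 12 c (m + 4) = val 12 c m + 8 := by
  unfold val
  rw [if_pos rfl, if_pos rfl, if_neg (by omega), if_neg (by omega)]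
  have h1 : (m + 4 - 1) / 4 = (m - 1) / 4 + 1 := by omega
  have h2 : (m + 4 - 1) % 4 = (m - 1) % 4 := by omega
  rw [h1, h2]
  ring

theorem small_check : ∀ a < 18, ∀ c < 14, ∀ m < 6, mexc (OV a c m) (val a c (m + 1)) = true := by
  decide +kernel

theorem grow_check : ∀ c < 14, ∀ m < 12, mexc (OV 12 c m) (val 12 c (m + 1)) = true := by
  decide +kernel

theorem cover_check : ∀ c < 14, ∀ v < 16, ∃ i < 9,
    val 12 12 i ^^^ val 6 c 2 = v ∨ val 12 3 i ^^^ val 9 c 2 = v ∨ val 12 7 i ^^^ val 10 c 2 = v ∨
    val 12 0 (i + 1) ^^^ val 11 c 2 = v := by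
  decide +kernel

theorem lt_ent : ∀ a < 18, ∀ e ∈ lt a, e.1 < 8 ∧ e.2.1 < 18 ∧ e.2.1 ≠ 12 := by decide +kernel

theorem rt_ent : ∀ c < 14, ∀ e ∈ rt c, e.1 < 8 ∧ e.2.1 < 14 := by decide +kernel

def MexP (l : List ℕ) (v : ℕ) : Prop := (∀ u, u < v → u ∈ l) ∧ v ∉ l

theorem mexc_iff {l : List ℕ} {v : ℕ} : mexc l v = true ↔ MexP l v := by
  unfold mexc MexP
  simp [List.all_eq_true]

theorem clamp {m m' i k : ℕ} (hm : 4 ≤ m) (hm' : 4 ≤ m') (h : i + k = m) :
    ∃ i' k', i' + k' = m' ∧ min i' 2 = min i 2 ∧ min k' 2 = min k 2 := by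
  by_cases h1 : i ≤ 1
  · exact ⟨i, m' - i, by omega, rfl, by omega⟩
  · by_cases h2 : k ≤ 1
    · exact ⟨m' - k, k, by omega, by omega, rfl⟩
    · exact ⟨2, m' - 2, by omega, by omega, by omega⟩

theorem OV_bd {a c m m' v : ℕ} (ha : a ≠ 12) (ha' : a < 18) (hm : 5 ≤ m) (hm' : 5 ≤ m')
    (h : v ∈ OV a c m) : v ∈ OV a c m' := by
  rw [mem_OV] at h ⊢
  rcases h with ⟨e, he, h⟩ | ⟨e, he, h⟩ | ⟨i, k, hik, h⟩ | ⟨i, k, hik, h⟩ | ⟨i, k, hik, h⟩ | ⟨i, k, hik, h⟩
  · left
    refine ⟨e, he, ?_⟩
    rw [← h, val_bd_congr (m := m' + e.2.2) (m' := m + e.2.2) (lt_ent a ha' e he).2.2 (by omega)]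
  · right; left
    refine ⟨e, he, ?_⟩
    rw [← h, val_bd_congr (m := m' + e.2.2) (m' := m + e.2.2) ha (by omega)]
  · right; right; left
    obtain ⟨i', k', h1, h2, h3⟩ := clamp (m' := m') (by omega) (by omega) hik
    refine ⟨i', k', h1, ?_⟩
    rw [← h, val_bd_congr ha h2, val_bd_congr (by decide) h3]
  · right; right; right; left
    obtain ⟨i', k', h1, h2, h3⟩ := clamp (m' := m') (by omega) (by omega) hik
    refine ⟨i', k', h1, ?_⟩
    rw [← h, val_bd_congr ha h2, val_bd_congr (by decide) h3]
  · right; right; right; right; left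
    obtain ⟨i', k', h1, h2, h3⟩ := clamp (m := m - 1) (m' := m' - 1) (i := i) (k := k) (by omega) (by omega) (by omega)
    refine ⟨i', k', by omega, ?_⟩
    rw [← h, val_bd_congr ha h2, val_bd_congr (by decide) h3]
  · right; right; right; right; right
    obtain ⟨i', k', h1, h2, h3⟩ := clamp (m := m - 1) (m' := m' - 1) (i := i) (k := k) (by omega) (by omega) (by omega)
    refine ⟨i', k', by omega, ?_⟩
    rw [← h, val_bd_congr (m := i' + 1) (m' := i + 1) ha (by omega), val_bd_congr (by decide) h3]

theorem mex_bd {a c : ℕ} (ha : a ≠ 12) (ha' : a < 18) (hc : c < 14) (m : ℕ) :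
    MexP (OV a c m) (val a c (m + 1)) := by
  by_cases hm : m < 6
  · exact mexc_iff.1 (small_check a ha' c hc m hm)
  · have h1 := mexc_iff.1 (small_check a ha' c hc 5 (by norm_num))
    rw [val_bd_congr (m := m + 1) (m' := 5 + 1) ha (by omega)]
    refine ⟨fun u hu => OV_bd ha ha' (by norm_num) (by omega) (h1.1 u hu), fun h => h1.2 ?_⟩
    exact OV_bd ha ha' (by omega) (by norm_num) h

theorem val12_small : ∀ c < 14, ∀ i < 5, val 12 c i < 16 := by decide +kernel

theorem val12_zero : val 12 12 0 < 8 ∧ val 12 3 0 < 8 ∧ val 12 7 0 < 8 := by decide +kernel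

theorem val12_ge {c m : ℕ} (hm : 8 ≤ m) : 8 ≤ val 12 c (m + 1) := by
  unfold val
  rw [if_pos rfl, if_neg (by omega)]
  omega

theorem xor_lt16 {x y : ℕ} (hx : x < 16) (hy : y < 8) : x ^^^ y < 16 :=
  Nat.xor_lt_two_pow (n := 4) hx (by omega)

theorem xor_lt8 {x y : ℕ} (hx : x < 8) (hy : y < 8) : x ^^^ y < 8 :=
  Nat.xor_lt_two_pow (n := 3) hx hy

theorem grow_step {m : ℕ} (hm : 8 ≤ m) (IH : ∀ c < 14, MexP (OV 12 c m) (val 12 c (m + 1))) :
    ∀ c < 14, MexP (OV 12 c (m + 4)) (val 12 c (m + 4 + 1)) := by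
  intro c hc
  obtain ⟨h1, h2⟩ := IH c hc
  have hv : val 12 c (m + 4 + 1) = val 12 c (m + 1) + 8 := by
    rw [show m + 4 + 1 = m + 1 + 4 by ring, val_shift (by omega)]
  have hge := val12_ge (c := c) hm
  rw [hv]
  constructor
  · intro v hlt
    by_cases hv16 : v < 16
    · obtain ⟨i, hi, h⟩ := cover_check c hc v hv16
      rw [mem_OV]
      rcases h with h | h | h | h
      · right; right; left
        exact ⟨i, m + 4 - i, by omega, by rw [← h, val_bd_congr (m := m + 4 - i) (m' := 2) (by decide) (by omega)]⟩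
      · right; right; right; left
        exact ⟨i, m + 4 - i, by omega, by rw [← h, val_bd_congr (m := m + 4 - i) (m' := 2) (by decide) (by omega)]⟩
      · right; right; right; right; left
        exact ⟨i, m + 3 - i, by omega, by rw [← h, val_bd_congr (m := m + 3 - i) (m' := 2) (by decide) (by omega)]⟩
      · right; right; right; right; right
        exact ⟨i, m + 3 - i, by omega, by rw [← h, val_bd_congr (m := m + 3 - i) (m' := 2) (by decide) (by omega)]⟩
    · have h3 := h1 (v - 8) (by omega)
      rw [mem_OV] at h3 ⊢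
      rcases h3 with ⟨e, he, h⟩ | ⟨e, he, h⟩ | ⟨i, k, hik, h⟩ | ⟨i, k, hik, h⟩ | ⟨i, k, hik, h⟩ | ⟨i, k, hik, h⟩
      · exfalso
        obtain ⟨h4, h5, h6⟩ := lt_ent 12 (by norm_num) e he
        have := xor_lt8 h4 (val_lt8 (c := c) (m := m + e.2.2) h6 h5 hc)
        omega
      · right; left
        refine ⟨e, he, ?_⟩
        rw [show m + 4 + e.2.2 = m + e.2.2 + 4 by ring, val_shift (by omega),
          xor_shift' _ _ (rt_ent c hc e he).1, h]
        omega
      · right; right; left
        by_cases hi : i = 0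
        · exfalso
          subst hi
          have := xor_lt8 val12_zero.1 (val_lt8 (a := 6) (c := c) (m := k) (by decide) (by decide) hc)
          omega
        · refine ⟨i + 4, k, by omega, ?_⟩
          rw [val_shift (by omega), xor_shift _ _ (val_lt8 (by decide) (by decide) hc), h]
          omega
      · right; right; right; left
        by_cases hi : i = 0
        · exfalso
          subst hi
          have := xor_lt8 val12_zero.2.1 (val_lt8 (a := 9) (c := c) (m := k) (by decide) (by decide) hc)
          omega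
        · refine ⟨i + 4, k, by omega, ?_⟩
          rw [val_shift (by omega), xor_shift _ _ (val_lt8 (by decide) (by decide) hc), h]
          omega
      · right; right; right; right; left
        by_cases hi : i = 0
        · exfalso
          subst hi
          have := xor_lt8 val12_zero.2.2 (val_lt8 (a := 10) (c := c) (m := k) (by decide) (by decide) hc)
          omega
        · refine ⟨i + 4, k, by omega, ?_⟩
          rw [val_shift (by omega), xor_shift _ _ (val_lt8 (by decide) (by decide) hc), h]
          omega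
      · right; right; right; right; right
        refine ⟨i + 4, k, by omega, ?_⟩
        rw [show i + 4 + 1 = i + 1 + 4 by ring, val_shift (by omega),
          xor_shift _ _ (val_lt8 (by decide) (by decide) hc), h]
        omega
  · intro h3
    rw [mem_OV] at h3
    rcases h3 with ⟨e, he, h⟩ | ⟨e, he, h⟩ | ⟨i, k, hik, h⟩ | ⟨i, k, hik, h⟩ | ⟨i, k, hik, h⟩ | ⟨i, k, hik, h⟩
    · obtain ⟨h4, h5, h6⟩ := lt_ent 12 (by norm_num) e he
      have := xor_lt8 h4 (val_lt8 (c := c) (m := m + 4 + e.2.2) h6 h5 hc)
      omega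
    · apply h2
      rw [mem_OV]
      right; left
      refine ⟨e, he, ?_⟩
      rw [show m + 4 + e.2.2 = m + e.2.2 + 4 by ring, val_shift (by omega),
          xor_shift' _ _ (rt_ent c hc e he).1] at h
      omega
    · by_cases hi : i < 5
      · have := xor_lt16 (val12_small 12 (by norm_num) i hi) (val_lt8 (a := 6) (c := c) (m := k) (by decide) (by decide) hc)
        omega
      · apply h2
        rw [mem_OV]
        right; right; left
        refine ⟨i - 4, k, by omega, ?_⟩
        rw [show i = i - 4 + 4 by omega, val_shift (by omega), xor_shift _ _ (val_lt8 (by decide) (by decide) hc)] at h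
        omega
    · by_cases hi : i < 5
      · have := xor_lt16 (val12_small 3 (by norm_num) i hi) (val_lt8 (a := 9) (c := c) (m := k) (by decide) (by decide) hc)
        omega
      · apply h2
        rw [mem_OV]
        right; right; right; left
        refine ⟨i - 4, k, by omega, ?_⟩
        rw [show i = i - 4 + 4 by omega, val_shift (by omega), xor_shift _ _ (val_lt8 (by decide) (by decide) hc)] at h
        omega
    · by_cases hi : i < 5
      · have := xor_lt16 (val12_small 7 (by norm_num) i hi) (val_lt8 (a := 10) (c := c) (m := k) (by decide) (by decide) hc)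
        omega
      · apply h2
        rw [mem_OV]
        right; right; right; right; left
        refine ⟨i - 4, k, by omega, ?_⟩
        rw [show i = i - 4 + 4 by omega, val_shift (by omega), xor_shift _ _ (val_lt8 (by decide) (by decide) hc)] at h
        omega
    · by_cases hi : i < 4
      · have := xor_lt16 (val12_small 0 (by norm_num) (i + 1) (by omega)) (val_lt8 (a := 11) (c := c) (m := k) (by decide) (by decide) hc)
        omega
      · apply h2
        rw [mem_OV]
        right; right; right; right; right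
        refine ⟨i - 4, k, by omega, ?_⟩
        rw [show i + 1 = i - 4 + 1 + 4 by omega, val_shift (by omega), xor_shift _ _ (val_lt8 (by decide) (by decide) hc)] at h
        omega

theorem mex_grow (m : ℕ) : ∀ c < 14, MexP (OV 12 c m) (val 12 c (m + 1)) := by
  induction m using Nat.strong_induction_on with
  | _ m ih =>
  by_cases hm : m < 12
  · intro c hc
    exact mexc_iff.1 (grow_check c hc m hm)
  · obtain ⟨k, rfl⟩ : ∃ k, m = k + 4 := ⟨m - 4, by omega⟩
    exact grow_step (by omega) (ih k (by omega))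

theorem mex_all {a c : ℕ} (ha : a < 18) (hc : c < 14) (m : ℕ) : MexP (OV a c m) (val a c (m + 1)) := by
  by_cases h : a = 12
  · subst h; exact mex_grow m c hc
  · exact mex_bd h ha hc m

theorem base_fam : ∀ a < 18, ∀ c < 14, ev (la a ++ rc c) = some (val a c 0) := by decide +kernel

/-- nim-values of all families -/
theorem fam_nim {a c : ℕ} (ha : a < 18) (hc : c < 14) (m : ℕ) : nim (fam a c m) = val a c m := by
  have key : ∀ n, ∀ a c m, a < 18 → c < 14 → (fam a c m).count true < n → nim (fam a c m) = val a c m := by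
    intro n
    induction n with
    | zero => intro a c m _ _ h; omega
    | succ n ih =>
      intro a c m ha hc hn
      cases m with
      | zero =>
        have := ev_sound (base_fam a ha c hc)
        simpa [fam, rep] using this
      | succ m =>
        obtain ⟨h1, h2⟩ := mex_all ha hc m
        apply nim_unique
        · intro v hv
          exact options_all ih ha hc (by omega) (h1 v hv)
        · intro w hw h3
          apply h2
          rw [← h3]
          exact options_in ih ha hc hw (by have := hw.count_lt; omega)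
  exact key _ a c m ha hc (Nat.lt_succ_self _)

theorem val_main (m : ℕ) : val 12 0 m = 2 * m := by
  have h0 : (GR.getD 0 []) = [0, 2, 4, 6, 8] := by decide +kernel
  unfold val
  rw [if_pos rfl, h0]
  by_cases hm : m = 0
  · subst hm; rfl
  · rw [if_neg hm]
    have h1 : (m - 1) % 4 = 0 ∨ (m - 1) % 4 = 1 ∨ (m - 1) % 4 = 2 ∨ (m - 1) % 4 = 3 := by omega
    rcases h1 with h | h | h | h <;> rw [h] <;> simp <;> omega

end Pool.Agent.Helper701.Duo
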