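import Mathlib

set_option autoImplicit false

namespace Pool.Agent.Helper701.Duo

/-- A move of Duotaire on a strip (true = peg, false = empty cell): three consecutive cells
`110` become `001`, or three consecutive cells `011` become `100`. -/
def Move (w w' : List Bool) : Prop :=
  ∃ u v : List Bool,
    (w = u ++ [true, true, false] ++ v ∧ w' = u ++ [false, false, true] ++ v) ∨
    (w = u ++ [false, true, true] ++ v ∧ w' = u ++ [true, false, false] ++ v)

theorem Move.count_lt {w w' : List Bool} (h : Move w w') : w'.count true < w.count true := by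
  obtain ⟨u, v, ⟨rfl, rfl⟩ | ⟨rfl, rfl⟩⟩ := h
  · simp only [List.count_append]
    have h1 : List.count true [true, true, false] = 2 := by decide
    have h2 : List.count true [false, false, true] = 1 := by decide
    omega
  · simp only [List.count_append]
    have h1 : List.count true [false, true, true] = 2 := by decide
    have h2 : List.count true [true, false, false] = 1 := by decide
    omega

/-- The nim-value: the least natural number that is not the nim-value of an option. -/
noncomputable def nim (w : List Bool) : ℕ :=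
  sInf {n : ℕ | ∀ (w' : List Bool) (_ : Move w w'), nim w' ≠ n}
termination_by w.count true
decreasing_by exact Move.count_lt (by assumption)

theorem nim_eq (w : List Bool) : nim w = sInf {n : ℕ | ∀ w', Move w w' → nim w' ≠ n} := by
  rw [nim]

/-- head moves -/
def hd : List Bool → List (List Bool)
  | true :: true :: false :: r => [false :: false :: true :: r]
  | false :: true :: true :: r => [true :: false :: false :: r]
  | _ => []

/-- all options -/
def opts : List Bool → List (List Bool)
  | [] => []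
  | a :: t => hd (a :: t) ++ (opts t).map (a :: ·)

theorem mem_hd {w w' : List Bool} : w' ∈ hd w ↔
    ∃ v, (w = [true, true, false] ++ v ∧ w' = [false, false, true] ++ v) ∨
    (w = [false, true, true] ++ v ∧ w' = [true, false, false] ++ v) := by
  match w with
  | [] => simp [hd]
  | [a] => simp [hd]
  | [a, b] => cases a <;> cases b <;> simp [hd]
  | a :: b :: c :: r =>
    cases a <;> cases b <;> cases c <;> simp [hd]

theorem Move_cons {a : Bool} {t w' : List Bool} :
    Move (a :: t) w' ↔ w' ∈ hd (a :: t) ∨ ∃ t', Move t t' ∧ w' = a :: t' := by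
  rw [mem_hd]
  constructor
  · rintro ⟨u, v, h⟩
    cases u with
    | nil =>
      left
      exact ⟨v, by simpa using h⟩
    | cons x u =>
      right
      rcases h with ⟨h1, rfl⟩ | ⟨h1, rfl⟩
      · simp only [List.cons_append, List.cons.injEq] at h1
        obtain ⟨rfl, rfl⟩ := h1
        exact ⟨_, ⟨u, v, Or.inl ⟨rfl, rfl⟩⟩, rfl⟩
      · simp only [List.cons_append, List.cons.injEq] at h1
        obtain ⟨rfl, rfl⟩ := h1
        exact ⟨_, ⟨u, v, Or.inr ⟨rfl, rfl⟩⟩, rfl⟩
  · rintro (⟨v, h⟩ | ⟨t', ⟨u, v, ⟨rfl, rfl⟩ | ⟨rfl, rfl⟩⟩, rfl⟩)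
    · exact ⟨[], v, by simpa using h⟩
    · exact ⟨a :: u, v, Or.inl ⟨rfl, rfl⟩⟩
    · exact ⟨a :: u, v, Or.inr ⟨rfl, rfl⟩⟩

theorem mem_opts {w w' : List Bool} : w' ∈ opts w ↔ Move w w' := by
  induction w generalizing w' with
  | nil =>
    simp only [opts, List.not_mem_nil, false_iff]
    rintro ⟨u, v, ⟨h, -⟩ | ⟨h, -⟩⟩ <;> simp at h
  | cons a t ih =>
    rw [Move_cons, opts, List.mem_append, List.mem_map]
    constructor
    · rintro (h | ⟨t', h, rfl⟩)
      · exact Or.inl h
      · exact Or.inr ⟨t', ih.1 h, rfl⟩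
    · rintro (h | ⟨t', h, rfl⟩)
      · exact Or.inl h
      · exact Or.inr ⟨t', ih.2 h, rfl⟩

/-- characterisation of the nim-value -/
theorem nim_spec (w : List Bool) :
    (∀ v, v < nim w → ∃ w', Move w w' ∧ nim w' = v) ∧ ∀ w', Move w w' → nim w' ≠ nim w := by
  have hne : {n : ℕ | ∀ w', Move w w' → nim w' ≠ n}.Nonempty := by
    obtain ⟨n, hn⟩ := Infinite.exists_notMem_finset ((opts w).map nim).toFinset
    refine ⟨n, fun w' h1 h2 => hn ?_⟩
    rw [List.mem_toFinset, List.mem_map]
    exact ⟨w', mem_opts.2 h1, h2⟩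
  constructor
  · intro v hv
    rw [nim_eq] at hv
    by_contra hcon
    apply Nat.notMem_of_lt_sInf hv
    intro w' h1 h2
    exact hcon ⟨w', h1, h2⟩
  · have := Nat.sInf_mem hne
    rw [← nim_eq] at this
    exact this

theorem nim_unique {w : List Bool} {n : ℕ} (h1 : ∀ v, v < n → ∃ w', Move w w' ∧ nim w' = v)
    (h2 : ∀ w', Move w w' → nim w' ≠ n) : nim w = n := by
  obtain ⟨h3, h4⟩ := nim_spec w
  rcases lt_trichotomy (nim w) n with h | h | h
  · obtain ⟨w', h5, h6⟩ := h1 _ h
    exact absurd h6 (h4 w' h5)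
  · exact h
  · obtain ⟨w', h5, h6⟩ := h3 _ h
    exact absurd h6 (h2 w' h5)

theorem Move_append_left {x x' : List Bool} (y : List Bool) (h : Move x x') : Move (x ++ y) (x' ++ y) := by
  obtain ⟨u, v, ⟨rfl, rfl⟩ | ⟨rfl, rfl⟩⟩ := h
  · exact ⟨u, v ++ y, Or.inl ⟨by simp, by simp⟩⟩
  · exact ⟨u, v ++ y, Or.inr ⟨by simp, by simp⟩⟩

theorem Move_append_right {y y' : List Bool} (x : List Bool) (h : Move y y') : Move (x ++ y) (x ++ y') := by
  obtain ⟨u, v, ⟨rfl, rfl⟩ | ⟨rfl, rfl⟩⟩ := h
  · exact ⟨x ++ u, v, Or.inl ⟨by simp, by simp⟩⟩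
  · exact ⟨x ++ u, v, Or.inr ⟨by simp, by simp⟩⟩

theorem hd_append {x : List Bool} (hx : 3 ≤ x.length) (z : List Bool) : hd (x ++ z) = (hd x).map (· ++ z) := by
  match x, hx with
  | a :: b :: c :: r, _ => cases a <;> cases b <;> cases c <;> simp [hd]

/-- moves of `x ++ y ++ z` when the middle part has length at least two -/
theorem Move_three {x y z w : List Bool} (hy : 2 ≤ y.length) :
    Move (x ++ (y ++ z)) w ↔ (∃ u, Move (x ++ y) u ∧ w = u ++ z) ∨ ∃ u, Move (y ++ z) u ∧ w = x ++ u := by
  induction x generalizing w with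
  | nil =>
    constructor
    · intro h
      exact Or.inr ⟨w, h, rfl⟩
    · rintro (⟨u, h, rfl⟩ | ⟨u, h, rfl⟩)
      · exact Move_append_left z h
      · exact h
  | cons a x ih =>
    constructor
    · intro h
      rw [List.cons_append, Move_cons] at h
      rcases h with h | ⟨t', h, rfl⟩
      · left
        rw [show a :: (x ++ (y ++ z)) = (a :: (x ++ y)) ++ z by simp,
          hd_append (by simp only [List.length_cons, List.length_append]; omega)] at h
        obtain ⟨u, h1, rfl⟩ := List.mem_map.1 h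
        exact ⟨u, Move_cons.2 (Or.inl h1), rfl⟩
      · rcases ih.1 h with ⟨u, h1, rfl⟩ | ⟨u, h1, rfl⟩
        · left
          exact ⟨a :: u, Move_cons.2 (Or.inr ⟨u, h1, rfl⟩), rfl⟩
        · right
          exact ⟨u, h1, rfl⟩
    · rintro (⟨u, h, rfl⟩ | ⟨u, h, rfl⟩)
      · have := Move_append_left z h
        rwa [List.append_assoc] at this
      · exact Move_append_right (a :: x) h

end Pool.Agent.Helper701.Duo
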