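import Pool.Agent.Helper701.Duo.Data

set_option autoImplicit false

namespace Pool.Agent.Helper701.Duo

open Tr

def Tr.chk (f : List Bool → ℕ → Bool) : Tr → List Bool → Bool
  | te, _ => true
  | tz t, p => t.chk f (false :: p)
  | tu t, p => t.chk f (true :: p)
  | tb v x y, p => (match v with
      | none => true
      | some n => f p.reverse n) && x.chk f (false :: p) && y.chk f (true :: p)

theorem Tr.chk_get {f : List Bool → ℕ → Bool} {T : Tr} {p w : List Bool} {v : ℕ}
    (h : T.chk f p = true) (hg : T.get w = some v) : f (p.reverse ++ w) v = true := by
  induction T generalizing p w with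
  | te => simp [Tr.get] at hg
  | tz t ih =>
    cases w with
    | nil => simp [Tr.get] at hg
    | cons a w =>
      cases a with
      | true => simp [Tr.get] at hg
      | false =>
        have h1 := ih (p := false :: p) (w := w) h (by simpa [Tr.get] using hg)
        simpa using h1
  | tu t ih =>
    cases w with
    | nil => simp [Tr.get] at hg
    | cons a w =>
      cases a with
      | false => simp [Tr.get] at hg
      | true =>
        have h1 := ih (p := true :: p) (w := w) h (by simpa [Tr.get] using hg)
        simpa using h1
  | tb u x y ihx ihy =>
    simp only [Tr.chk, Bool.and_eq_true] at h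
    cases w with
    | nil =>
      have hg' : u = some v := hg
      subst hg'
      simpa using h.1.1
    | cons a w =>
      cases a with
      | false =>
        have h1 := ihx (p := false :: p) (w := w) h.1.2 (by simpa [Tr.get] using hg)
        simpa using h1
      | true =>
        have h1 := ihy (p := true :: p) (w := w) h.2 (by simpa [Tr.get] using hg)
        simpa using h1

/-- number of pegs, structurally -/
def cnt : List Bool → ℕ
  | [] => 0
  | true :: t => cnt t + 1
  | false :: t => cnt t

theorem cnt_eq (w : List Bool) : cnt w = w.count true := by
  induction w with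
  | nil => rfl
  | cons a t ih => cases a <;> simp [cnt, ih]

/-- table lookup for a component -/
def lk (w : List Bool) : Option ℕ :=
  if Nat.ble (cnt w) 1 then some 0 else T0.get w

/-- nim-value xor of a list of components -/
def xall : List (List Bool) → Option ℕ
  | [] => some 0
  | w :: l => match lk w, xall l with
    | some a, some b => some (a ^^^ b)
    | _, _ => none

/-- splitting into components, last component not trimmed at its right end -/
def spl : ℕ → List Bool → List Bool → List (List Bool) × List Bool
  | 0, acc, w => ([], acc.reverse ++ w)
  | _ + 1, acc, [] => ([], acc.reverse)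
  | n + 1, acc, false :: false :: false :: t =>
      let q := spl n [] (false :: t)
      ((false :: acc).reverse :: q.1, q.2)
  | n + 1, [], false :: false :: t => spl n [] (false :: t)
  | n + 1, acc, a :: t => spl n (a :: acc) t

noncomputable def nx : List (List Bool) → ℕ
  | [] => 0
  | w :: l => nim w ^^^ nx l

theorem spl_nim (n : ℕ) (acc w z : List Bool) :
    nim (acc.reverse ++ w ++ z) = nx (spl n acc w).1 ^^^ nim ((spl n acc w).2 ++ z) := by
  fun_induction spl n acc w with
  | case1 acc w => simp [nx]
  | case2 n acc => simp [nx]
  | case3 n acc t q ih =>
    have h := nim_split acc.reverse (t ++ z)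
    simp only [nx, List.reverse_cons]
    rw [Nat.xor_assoc, ← ih]
    simpa using h
  | case4 n t h1 ih =>
    rw [← ih]
    simpa using nim_trim_left (t ++ z)
  | case5 n acc a t h1 h2 ih =>
    rw [← ih]
    simp

theorem spl_cnt (n : ℕ) (acc w : List Bool) :
    (spl n acc w).2.count true + ((spl n acc w).1.map (fun u => u.count true)).sum =
      acc.count true + w.count true := by
  fun_induction spl n acc w with
  | case1 acc w => simp
  | case2 n acc => simp
  | case3 n acc t q ih =>
    have hq : q = spl n [] (false :: t) := rfl
    rw [← hq] at ih
    simp only [List.map_cons, List.sum_cons, List.reverse_cons, List.count_append, List.count_reverse,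
      List.count_cons, List.count_nil] at ih ⊢
    simp at ih ⊢
    omega
  | case4 n t h1 ih =>
    simp at ih ⊢
    exact ih
  | case5 n acc a t h1 h2 ih =>
    rw [ih]
    simp only [List.count_cons]
    omega

/-- drop one of two final empty cells -/
def fin2 (w : List Bool) : List Bool :=
  match w.reverse with
  | false :: false :: r => (false :: r).reverse
  | _ => w

theorem fin2_nim (w : List Bool) : nim (fin2 w) = nim w := by
  unfold fin2
  split
  · rename_i r h
    have : w = r.reverse ++ [false, false] := by
      rw [← List.reverse_reverse w, h]; simp
    rw [this, nim_trim_right]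
    simp
  · rfl

theorem fin2_cnt (w : List Bool) : (fin2 w).count true = w.count true := by
  unfold fin2
  split
  · rename_i r h
    have : w = r.reverse ++ [false, false] := by
      rw [← List.reverse_reverse w, h]; simp
    rw [this]
    simp
  · rfl

/-- evaluation of the nim-value of a word through the table -/
def ev (w : List Bool) : Option ℕ :=
  let q := spl (w.length + 1) [] w
  xall (fin2 q.2 :: q.1)

def mexc (l : List ℕ) (v : ℕ) : Bool :=
  (List.range v).all (fun i => l.contains i) && !l.contains v

/-- evaluate a list of words -/
def evs : List (List Bool) → Option (List ℕ)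
  | [] => some []
  | w :: l => match ev w, evs l with
    | some a, some b => some (a :: b)
    | _, _ => none

def good (w : List Bool) (v : ℕ) : Bool :=
  match evs (opts w) with
  | none => false
  | some l => mexc l v

theorem lk_nim {N : ℕ} (hT : ∀ w v, w.count true < N → T0.get w = some v → nim w = v)
    {w : List Bool} {v : ℕ} (hw : w.count true < N) (h : lk w = some v) : nim w = v := by
  unfold lk at h
  split at h
  · rename_i h1
    have h2 : cnt w ≤ 1 := Nat.le_of_ble_eq_true h1
    rw [cnt_eq] at h2
    rw [nim_few h2]
    simpa using h
  · exact hT w v hw h

theorem xall_nim {N : ℕ} (hT : ∀ w v, w.count true < N → T0.get w = some v → nim w = v)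
    {l : List (List Bool)} {v : ℕ} (hl : ∀ w ∈ l, w.count true < N) (h : xall l = some v) :
    nx l = v := by
  induction l generalizing v with
  | nil => simpa [xall, nx] using h
  | cons w l ih =>
    rw [xall] at h
    split at h
    · rename_i a b h1 h2
      rw [nx, lk_nim hT (hl w (by simp)) h1, ih (fun w' hw' => hl w' (by simp [hw'])) h2]
      simpa using h
    · simp at h

theorem ev_nim {N : ℕ} (hT : ∀ w v, w.count true < N → T0.get w = some v → nim w = v)
    {w : List Bool} {v : ℕ} (hw : w.count true < N) (h : ev w = some v) : nim w = v := by
  have h1 := spl_nim (w.length + 1) [] w []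
  have h2 := spl_cnt (w.length + 1) [] w
  have h3 : nx (fin2 (spl (w.length + 1) [] w).2 :: (spl (w.length + 1) [] w).1) = v := by
    refine xall_nim hT ?_ h
    intro u hu
    rcases List.mem_cons.1 hu with rfl | hu
    · rw [fin2_cnt]
      simp at h2; omega
    · have h4 : u.count true ≤ ((spl (w.length + 1) [] w).1.map (fun u => u.count true)).sum := by
        apply List.single_le_sum (by simp)
        exact List.mem_map.2 ⟨u, hu, rfl⟩
      simp at h2; omega
  rw [nx, fin2_nim] at h3
  simp only [List.append_nil, List.reverse_nil, List.nil_append] at h1
  rw [h1, Nat.xor_comm]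
  exact h3

theorem evs_nim {N : ℕ} (hT : ∀ w v, w.count true < N → T0.get w = some v → nim w = v)
    {l : List (List Bool)} {r : List ℕ} (hl : ∀ w ∈ l, w.count true < N) (h : evs l = some r) :
    l.map nim = r := by
  induction l generalizing r with
  | nil => simpa [evs] using h
  | cons w l ih =>
    rw [evs] at h
    split at h
    · rename_i a b h1 h2
      rw [List.map_cons, ev_nim hT (hl w (by simp)) h1, ih (fun w' hw' => hl w' (by simp [hw'])) h2]
      simpa using h
    · simp at h

theorem mexc_nim {w : List Bool} {v : ℕ} (h : mexc ((opts w).map nim) v = true) : nim w = v := by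
  rw [mexc, Bool.and_eq_true, List.all_eq_true] at h
  obtain ⟨h1, h2⟩ := h
  apply nim_unique
  · intro i hi
    have := h1 i (List.mem_range.2 hi)
    rw [List.contains_iff_mem, List.mem_map] at this
    obtain ⟨w', h3, h4⟩ := this
    exact ⟨w', mem_opts.1 h3, h4⟩
  · intro w' h3 h4
    have : ((opts w).map nim).contains v = true := by
      rw [List.contains_iff_mem, List.mem_map]
      exact ⟨w', mem_opts.2 h3, h4⟩
    rw [this] at h2
    simp at h2

theorem base_check : T0.chk good [] = true := by decide +kernel

theorem base_nim {w : List Bool} {v : ℕ} (h : T0.get w = some v) : nim w = v := by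
  have key : ∀ N, ∀ w v, w.count true < N → T0.get w = some v → nim w = v := by
    intro N
    induction N with
    | zero => intro w v h; omega
    | succ N ih =>
      intro w v hw hg
      have h1 := Tr.chk_get base_check hg
      simp only [List.reverse_nil, List.nil_append] at h1
      unfold good at h1
      split at h1
      · simp at h1
      · rename_i l hl
        apply mexc_nim
        rw [evs_nim ih ?_ hl]
        · exact h1
        · intro u hu
          have := (mem_opts.1 hu).count_lt
          omega
  exact key _ w v (Nat.lt_succ_self _) h

theorem ev_sound {w : List Bool} {v : ℕ} (h : ev w = some v) : nim w = v :=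
  ev_nim (N := w.count true + 1) (fun _ _ _ h => base_nim h) (Nat.lt_succ_self _) h

theorem xall_sound {l : List (List Bool)} {v : ℕ} (h : xall l = some v) : nx l = v := by
  induction l generalizing v with
  | nil => simpa [xall, nx] using h
  | cons w l ih =>
    rw [xall] at h
    split at h
    · rename_i a b h1 h2
      rw [nx, lk_nim (N := w.count true + 1) (fun _ _ _ h => base_nim h) (Nat.lt_succ_self _) h1, ih h2]
      simpa using h
    · simp at h

end Pool.Agent.Helper701.Duo
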