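import Pool.Agent.Helper701.Duo.Split

set_option autoImplicit false

namespace Pool.Agent.Helper701.Duo

abbrev I : Bool := true
abbrev O : Bool := false

/-- binary trie storing nim-values of words -/
inductive Tr : Type
  | te : Tr
  | tz : Tr → Tr
  | tu : Tr → Tr
  | tb : Option ℕ → Tr → Tr → Tr

open Tr

def Tr.get : Tr → List Bool → Option ℕ
  | te, _ => none
  | tz _, [] => none
  | tz t, a :: w => if a then none else t.get w
  | tu _, [] => none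
  | tu t, a :: w => if a then t.get w else none
  | tb v _ _, [] => v
  | tb _ x y, a :: w => if a then y.get w else x.get w

/-- the block -/
def B : List Bool := [I, I, O, I, I, O, I, O, I, O]

def LA : List (List Bool) :=
  [[O],
   [O,I],
   [O,I,O],
   [O,I,O,O,I,O,O,I,I,O,I,O],
   [O,I,O,O,I,I,O,I,O],
   [O,I,O,O,I,I,I,O,I,O,I,O],
   [O,I,O,I,O],
   [O,I,O,I,O,O,I,O,I,O,I,O],
   [O,I,I,O],
   [O,I,I,O,I,O],
   [O,I,I,O,I,O,I,O],
   [O,I,I,I,O,I,O,I,O],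
   [I],
   [I,O,O,I,O,O,I,I,O,I,O],
   [I,O,O,I,O,I,O,I,O],
   [I,O,O,I,O,I,I,O,I,O,I,O],
   [I,O,O,I,I,I,O,I,O,I,O],
   [I,O,I,O,O,I,O,I,O,I,O]]

def RC : List (List Bool) :=
  [[],
   [I,O,O,I],
   [I,O,O,I,O,I,O],
   [I,I,O],
   [I,I,O,I,O,O,I],
   [I,I,O,I,I,O],
   [I,I,O,I,I,O,I,O],
   [I,I,O,I,I,O,I,O,I,I,O],
   [I,I,O,I,I,O,I,O,I,I,O,O,I,O],
   [I,I,O,I,I,O,I,O,I,I,O,O,I,O,O,I,O],
   [I,I,O,I,I,O,I,I,O],
   [I,I,O,I,I,I,O],
   [I,I,I,O],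
   [I,I,I,O,O,I,O]]

def LT : List (List (ℕ × ℕ × ℕ)) :=
  [[(0, 10, 0), (0, 11, 0), (1, 6, 0), (1, 9, 0)],
   [(0, 15, 0), (0, 5, 0), (0, 6, 0), (1, 9, 0)],
   [(1, 10, 0), (0, 11, 0), (2, 6, 0), (2, 9, 0)],
   [(0, 2, 1), (0, 8, 1), (0, 10, 0), (2, 11, 0), (4, 6, 0), (1, 9, 0)],
   [(0, 2, 1), (0, 8, 1), (0, 10, 0), (2, 11, 0), (4, 6, 0), (1, 9, 0)],
   [(0, 7, 1), (0, 3, 1), (4, 10, 0), (1, 11, 0), (0, 6, 0), (0, 9, 0)],
   [(2, 10, 0), (0, 11, 0), (1, 6, 0), (1, 9, 0)],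
   [(1, 10, 0), (0, 11, 0), (2, 6, 0), (2, 9, 0)],
   [(0, 0, 1), (0, 1, 1), (1, 10, 0), (1, 11, 0), (3, 6, 0), (0, 9, 0)],
   [(0, 2, 1), (0, 8, 1), (0, 10, 0), (2, 11, 0), (4, 6, 0), (1, 9, 0)],
   [(0, 6, 1), (0, 9, 1), (1, 10, 0), (1, 11, 0), (0, 6, 0), (0, 9, 0)],
   [(0, 14, 1), (0, 4, 1), (4, 10, 0), (1, 11, 0), (0, 6, 0), (0, 9, 0)],
   [(0, 16, 0), (0, 6, 0), (1, 9, 0)],
   [(0, 2, 1), (0, 8, 1), (0, 10, 0), (2, 11, 0), (4, 6, 0), (1, 9, 0)],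
   [(1, 10, 0), (0, 11, 0), (2, 6, 0), (2, 9, 0)],
   [(1, 6, 1), (0, 9, 1), (1, 10, 0), (0, 11, 0), (2, 6, 0), (2, 9, 0)],
   [(0, 17, 1), (0, 13, 1), (4, 10, 0), (1, 11, 0), (0, 6, 0), (0, 9, 0)],
   [(1, 10, 0), (0, 11, 0), (2, 6, 0), (2, 9, 0)]]

def RT : List (List (ℕ × ℕ × ℕ)) :=
  [[(0, 12, 0), (2, 3, 0)],
   [(0, 12, 0), (1, 3, 0)],
   [(0, 12, 0), (1, 3, 0)],
   [(1, 12, 0), (1, 3, 0), (0, 7, 0), (0, 0, 1)],
   [(0, 12, 0), (1, 3, 0), (0, 7, 0), (1, 0, 1)],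
   [(0, 12, 0), (0, 3, 0), (1, 7, 0), (1, 0, 1), (0, 12, 1), (0, 3, 1)],
   [(3, 12, 0), (1, 3, 0), (2, 7, 0), (2, 0, 1), (0, 12, 1), (1, 3, 1)],
   [(0, 12, 0), (0, 3, 0), (1, 7, 0), (4, 0, 1), (2, 12, 1), (0, 3, 1), (0, 10, 1), (0, 6, 1)],
   [(0, 12, 0), (0, 3, 0), (1, 7, 0), (4, 0, 1), (2, 12, 1), (0, 3, 1), (0, 10, 1), (0, 6, 1)],
   [(0, 12, 0), (0, 3, 0), (1, 7, 0), (4, 0, 1), (2, 12, 1), (0, 3, 1), (0, 10, 1), (0, 6, 1)],
   [(1, 12, 0), (2, 3, 0), (0, 7, 0), (3, 0, 1), (1, 12, 1), (1, 3, 1), (0, 11, 1), (0, 5, 1)],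
   [(2, 12, 0), (0, 3, 0), (1, 7, 0), (0, 0, 1), (0, 13, 1), (0, 4, 1)],
   [(1, 12, 0), (4, 3, 0), (0, 8, 0), (0, 1, 1)],
   [(1, 12, 0), (4, 3, 0), (0, 9, 0), (0, 2, 1)]]

def TB : List (List (List ℕ)) :=
  [[[0, 0, 0], [0, 3, 3], [0, 3, 3], [1, 1, 1], [2, 3, 3], [0, 0, 0], [3, 3, 3], [0, 0, 0], [0, 0, 0], [0, 0, 0], [1, 1, 1], [3, 2, 2], [1, 1, 1], [1, 1, 1]],
   [[0, 2, 2], [1, 1, 1], [1, 1, 1], [1, 3, 3], [2, 1, 1], [3, 2, 2], [1, 1, 1], [0, 2, 2], [0, 2, 2], [0, 2, 2], [2, 6, 3], [1, 0, 0], [0, 3, 3], [0, 3, 3]],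
   [[0, 3, 3], [0, 0, 0], [0, 0, 0], [2, 2, 2], [0, 0, 0], [3, 3, 3], [0, 0, 0], [1, 1, 1], [1, 1, 1], [1, 1, 1], [0, 2, 2], [1, 1, 1], [2, 2, 2], [2, 2, 2]],
   [[2, 0, 0], [1, 1, 1], [1, 1, 1], [1, 1, 1], [1, 3, 4], [0, 0, 0], [1, 1, 1], [0, 0, 0], [0, 0, 0], [0, 0, 0], [2, 1, 1], [0, 2, 2], [4, 3, 3], [4, 3, 3]],
   [[2, 0, 0], [1, 1, 1], [1, 1, 1], [1, 1, 1], [1, 3, 4], [0, 0, 0], [1, 1, 1], [0, 0, 0], [0, 0, 0], [0, 0, 0], [2, 1, 1], [0, 2, 2], [4, 3, 3], [4, 3, 3]],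
   [[1, 1, 1], [2, 2, 2], [2, 2, 2], [0, 0, 0], [2, 2, 2], [1, 1, 1], [2, 2, 2], [3, 3, 3], [3, 3, 3], [3, 3, 3], [5, 0, 0], [3, 3, 3], [0, 0, 0], [0, 0, 0]],
   [[0, 0, 0], [0, 3, 3], [0, 3, 3], [1, 1, 1], [0, 3, 3], [0, 0, 0], [3, 3, 3], [0, 0, 0], [0, 0, 0], [0, 0, 0], [1, 1, 1], [2, 2, 2], [1, 1, 1], [1, 1, 1]],
   [[0, 3, 3], [0, 0, 0], [0, 0, 0], [2, 2, 2], [0, 0, 0], [3, 3, 3], [0, 0, 0], [1, 1, 1], [1, 1, 1], [1, 1, 1], [0, 2, 2], [1, 1, 1], [2, 2, 2], [2, 2, 2]],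
   [[1, 1, 1], [2, 0, 2], [2, 0, 2], [0, 0, 0], [3, 4, 2], [1, 1, 1], [0, 2, 2], [2, 1, 1], [2, 1, 1], [2, 1, 1], [0, 0, 0], [2, 6, 3], [3, 5, 0], [3, 5, 0]],
   [[2, 0, 0], [1, 1, 1], [1, 1, 1], [1, 1, 1], [1, 3, 4], [0, 0, 0], [1, 1, 1], [0, 0, 0], [0, 0, 0], [0, 0, 0], [2, 1, 1], [0, 2, 2], [4, 3, 3], [4, 3, 3]],
   [[1, 1, 1], [2, 2, 2], [2, 2, 2], [0, 0, 0], [2, 2, 2], [1, 1, 1], [2, 2, 2], [1, 1, 1], [1, 1, 1], [1, 1, 1], [0, 0, 0], [3, 3, 3], [0, 0, 0], [0, 0, 0]],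
   [[1, 1, 1], [2, 2, 2], [2, 2, 2], [0, 0, 0], [2, 2, 2], [1, 1, 1], [2, 2, 2], [3, 3, 3], [3, 3, 3], [3, 3, 3], [5, 0, 0], [3, 3, 3], [0, 0, 0], [0, 0, 0]],
   [[0, 2, 4], [1, 1, 1], [1, 1, 1], [1, 3, 5], [0, 1, 1], [2, 4, 6], [1, 1, 5], [0, 2, 4], [0, 2, 4], [0, 2, 4], [4, 6, 8], [1, 0, 5], [0, 2, 4], [0, 2, 4]],
   [[2, 0, 0], [1, 1, 1], [1, 1, 1], [1, 1, 1], [1, 3, 4], [0, 0, 0], [1, 1, 1], [0, 0, 0], [0, 0, 0], [0, 0, 0], [2, 1, 1], [0, 2, 2], [4, 3, 3], [4, 3, 3]],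
   [[0, 3, 3], [0, 0, 0], [0, 0, 0], [2, 2, 2], [0, 0, 0], [3, 3, 3], [0, 0, 0], [1, 1, 1], [1, 1, 1], [1, 1, 1], [0, 2, 2], [1, 1, 1], [2, 2, 2], [2, 2, 2]],
   [[0, 3, 3], [0, 0, 0], [0, 0, 0], [2, 2, 2], [0, 0, 0], [3, 3, 3], [0, 0, 0], [3, 4, 4], [3, 4, 4], [3, 4, 4], [4, 2, 2], [1, 1, 1], [2, 2, 2], [2, 2, 2]],
   [[1, 1, 1], [2, 2, 2], [2, 2, 2], [0, 0, 0], [2, 2, 2], [1, 1, 1], [2, 2, 2], [3, 3, 3], [3, 3, 3], [3, 3, 3], [5, 0, 0], [3, 3, 3], [0, 0, 0], [0, 0, 0]],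
   [[0, 3, 3], [0, 0, 0], [0, 0, 0], [2, 2, 2], [0, 0, 0], [3, 3, 3], [0, 0, 0], [1, 1, 1], [1, 1, 1], [1, 1, 1], [0, 2, 2], [1, 1, 1], [2, 2, 2], [2, 2, 2]]]

def GR : List (List ℕ) :=
  [[0, 2, 4, 6, 8], [1, 1, 1, 5, 5], [1, 1, 1, 5, 5], [1, 3, 5, 7, 9], [0, 1, 1, 8, 8], [2, 4, 6, 8, 10], [1, 1, 5, 5, 9], [0, 2, 4, 6, 8], [0, 2, 4, 6, 8], [0, 2, 4, 6, 8], [4, 6, 8, 9, 12], [1, 0, 5, 4, 9], [0, 2, 4, 6, 8], [0, 2, 4, 6, 8]]

def T0 : Tr :=
  (tb none (tu (tb none (tb none (tu (tb (some 0) (tb (some 0) (tu (tb (some 0) (tz (tu (tb (some 0) te te)))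
  (tb none (tb (some 1) te (tb none (tb (some 2) te (tb none (tz (tu (tb (some 1) (tu (tz (tb (some 1) te
  te))) te))) (tb none (tb (some 1) te (tb none (tz (tu (tb (some 1) te te))) (tb none (tb (some 0) te (tb
  none (tb (some 1) te (tu (tz (tb (some 0) (tu (tz (tb (some 0) (tu (tz (tb (some 0) te te))) te))) te))))
  (tz (tb (some 2) te te)))) (tz (tb (some 0) te te))))) (tz (tb (some 4) (tu (tz (tb (some 4) te te)))
  te))))) (tz (tb (some 0) (tu (tz (tb (some 0) (tu (tz (tb (some 0) te te))) te))) te)))) (tz (tb (some 1) te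
  te))))) (tz (tb (some 0) (tu (tz (tb (some 0) te te))) te))) (tb none (tb (some 1) (tu (tb (some 1) te te))
  (tb none (tb (some 2) te (tb none (tz (tu (tb (some 1) (tu (tz (tb (some 1) te te))) te))) (tb none (tb
  (some 1) te (tb none (tz (tu (tb (some 1) te te))) (tb none (tb (some 0) te (tb none (tb (some 1) te (tu (tz
  (tb (some 0) (tu (tz (tb (some 0) (tu (tz (tb (some 0) te te))) te))) te)))) (tz (tb (some 2) te te)))) (tz
  (tb (some 0) te te))))) (tz (tb (some 4) (tu (tz (tb (some 4) te te))) te))))) (tz (tb (some 0) (tu (tz (tb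
  (some 0) (tu (tz (tb (some 0) te te))) te))) te)))) (tb none (tb (some 1) te (tb none (tb (some 2) te (tb
  none (tb (some 1) te (tb none (tz (tu (tb (some 2) (tu (tz (tb (some 2) te te))) te))) (tb none (tb (some 0)
  te (tb none (tz (tu (tb (some 2) te te))) (tb none (tb (some 1) te (tb none (tb (some 2) te (tu (tz (tb
  (some 3) (tu (tz (tb (some 3) (tu (tz (tb (some 3) te te))) te))) te)))) (tz (tb (some 5) te te)))) (tz (tb
  (some 3) te te))))) (tz (tb (some 0) (tu (tz (tb (some 0) te te))) te))))) (tz (tb (some 4) (tu (tz (tb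
  (some 4) (tu (tz (tb (some 4) te te))) te))) te)))) (tz (tb (some 3) te te)))) (tz (tb (some 0) te te))))))
  (tb (some 0) (tb (some 0) (tu (tb (some 0) (tb (some 0) te (tb none (tb (some 0) te (tb none (tb (some 0) te
  (tb none (tz (tu (tb (some 0) (tu (tz (tb (some 0) te te))) te))) (tb none (tb (some 2) te (tb none (tz (tu
  (tb (some 0) te te))) (tb none (tb (some 3) te (tb none (tb (some 0) te (tu (tz (tb (some 1) (tu (tz (tb
  (some 1) (tu (tz (tb (some 1) te te))) te))) te)))) (tz (tb (some 0) te te)))) (tz (tb (some 1) te te)))))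
  (tz (tb (some 2) (tu (tz (tb (some 2) te te))) te))))) (tz (tb (some 1) (tu (tz (tb (some 1) (tu (tz (tb
  (some 1) te te))) te))) te)))) (tz (tb (some 2) te te)))) (tz (tb (some 1) te te)))) (tb none (tb (some 0)
  (tu (tb (some 0) (tu (tz (tb (some 0) te te))) te)) te) (tb none (tb (some 1) te (tb none (tz (tu (tb (some
  0) te te))) (tb none (tb (some 0) te (tb none (tb (some 3) te (tu (tz (tb (some 0) (tu (tz (tb (some 0) (tu
  (tz (tb (some 0) te te))) te))) te)))) (tz (tb (some 1) te te)))) (tz (tb (some 2) te te))))) (tz (tb (some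
  1) (tu (tz (tb (some 1) te te))) te))))) (tb none (tb (some 2) (tu (tz (tb (some 2) (tu (tz (tb (some 2) te
  te))) te))) (tb none (tz (tu (tb (some 0) te te))) (tb none (tb (some 3) te (tb none (tb (some 0) te (tu (tz
  (tb (some 1) (tu (tz (tb (some 1) (tu (tz (tb (some 1) te te))) te))) te)))) (tz (tb (some 0) te te)))) (tz
  (tb (some 1) te te))))) (tz (tb (some 2) (tu (tz (tb (some 2) te te))) te))))) (tb none (tb (some 1) (tu (tb
  (some 1) (tb (some 1) (tu (tz (tb (some 1) te te))) (tz (tb (some 1) te te))) te)) (tb none (tb (some 2) (tu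
  (tb (some 2) (tu (tz (tb (some 2) te te))) te)) (tb none (tb (some 1) (tu (tb (some 1) (tu (tz (tb (some 1)
  te te))) te)) (tb none (tz (tu (tb (some 2) (tu (tz (tb (some 2) te te))) te))) (tb none (tb (some 0) te (tb
  none (tz (tu (tb (some 2) te te))) (tb none (tb (some 1) te (tb none (tb (some 2) te (tu (tz (tb (some 1)
  (tu (tz (tb (some 1) (tu (tz (tb (some 1) te te))) te))) te)))) (tz (tb (some 0) te te)))) (tz (tb (some 3)
  te te))))) (tz (tb (some 0) (tu (tz (tb (some 0) te te))) te))))) (tb none (tb (some 1) (tu (tz (tb (some 1)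
  (tu (tz (tb (some 1) te te))) te))) (tb none (tz (tu (tb (some 1) te te))) (tb none (tb (some 0) te (tb none
  (tb (some 1) te (tu (tz (tb (some 0) (tu (tz (tb (some 0) (tu (tz (tb (some 0) te te))) te))) te)))) (tz (tb
  (some 2) te te)))) (tz (tb (some 0) te te))))) (tz (tb (some 4) (tu (tz (tb (some 4) te te))) te))))) (tb
  none (tb (some 0) (tu (tz (tb (some 0) (tu (tz (tb (some 0) te te))) te))) (tb none (tb (some 3) (tu (tb
  (some 3) te te)) (tu (tz (tb (some 0) (tu (tz (tb (some 0) (tu (tz (tb (some 0) te te))) te))) te)))) (tb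
  none (tb (some 1) te (tb none (tb (some 0) te (tu (tz (tb (some 2) (tu (tz (tb (some 2) (tu (tz (tb (some 2)
  te te))) te))) te)))) (tz (tb (some 0) te te)))) (tz (tb (some 2) te te))))) (tz (tb (some 3) (tu (tz (tb
  (some 3) te te))) te))))) (tb none (tb (some 1) (tu (tz (tb (some 1) (tu (tz (tb (some 1) te te))) te))) (tb
  none (tb (some 2) (tu (tb (some 2) te te)) (tb none (tb (some 1) te (tb none (tz (tu (tb (some 2) (tu (tz
  (tb (some 2) te te))) te))) (tb none (tb (some 0) te (tb none (tz (tu (tb (some 2) te te))) (tb none (tb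
  (some 1) te (tb none (tb (some 2) te (tu (tz (tb (some 3) (tu (tz (tb (some 3) (tu (tz (tb (some 3) te te)))
  te))) te)))) (tz (tb (some 5) te te)))) (tz (tb (some 3) te te))))) (tz (tb (some 0) (tu (tz (tb (some 0) te
  te))) te))))) (tz (tb (some 4) (tu (tz (tb (some 4) (tu (tz (tb (some 4) te te))) te))) te)))) (tb none (tb
  (some 3) te (tb none (tb (some 1) te (tu (tz (tb (some 0) (tu (tz (tb (some 0) (tu (tz (tb (some 0) te te)))
  te))) te)))) (tz (tb (some 2) te te)))) (tz (tb (some 1) te te))))) (tz (tb (some 0) (tu (tz (tb (some 0) te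
  te))) te)))))) (tb none (tb none (tu (tb (some 0) (tb (some 0) (tu (tb (some 0) (tb (some 0) (tu (tb (some
  0) (tb (some 0) te te) te)) te) (tb none (tb (some 1) te (tb none (tb (some 2) te (tb none (tz (tu (tb (some
  1) (tu (tz (tb (some 1) te te))) te))) (tb none (tb (some 1) te (tb none (tz (tu (tb (some 1) te te))) (tb
  none (tb (some 0) te (tb none (tb (some 1) te (tu (tz (tb (some 0) (tu (tz (tb (some 0) (tu (tz (tb (some 0)
  te te))) te))) te)))) (tz (tb (some 2) te te)))) (tz (tb (some 0) te te))))) (tz (tb (some 4) (tu (tz (tb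
  (some 4) te te))) te))))) (tz (tb (some 0) (tu (tz (tb (some 0) (tu (tz (tb (some 0) te te))) te))) te))))
  (tz (tb (some 1) te te))))) (tb none (tb (some 0) (tu (tb (some 0) (tb (some 0) te te) te)) (tb none (tb
  (some 0) te (tb none (tz (tu (tb (some 0) (tu (tz (tb (some 0) te te))) te))) (tb none (tb (some 2) te (tb
  none (tz (tu (tb (some 0) te te))) (tb none (tb (some 3) te (tb none (tb (some 0) te (tu (tz (tb (some 1)
  (tu (tz (tb (some 1) (tu (tz (tb (some 1) te te))) te))) te)))) (tz (tb (some 0) te te)))) (tz (tb (some 1)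
  te te))))) (tz (tb (some 2) (tu (tz (tb (some 2) te te))) te))))) (tz (tb (some 1) (tu (tz (tb (some 1) (tu
  (tz (tb (some 1) te te))) te))) te)))) (tb none (tb (some 2) te (tb none (tb (some 0) te (tb none (tb (some
  0) te (tb none (tz (tu (tb (some 0) (tu (tz (tb (some 0) te te))) te))) (tb none (tb (some 2) te (tb none
  (tz (tu (tb (some 0) te te))) (tb none (tb (some 3) te (tb none (tb (some 0) te (tu (tz (tb (some 3) (tu (tz
  (tb (some 3) (tu (tz (tb (some 3) te te))) te))) te)))) (tz (tb (some 4) te te)))) (tz (tb (some 1) te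
  te))))) (tz (tb (some 2) (tu (tz (tb (some 2) te te))) te))))) (tz (tb (some 1) (tu (tz (tb (some 1) (tu (tz
  (tb (some 1) te te))) te))) te)))) (tz (tb (some 3) te te)))) (tz (tb (some 2) te te))))) (tb none (tb (some
  1) (tu (tb (some 1) (tb (some 1) te te) te)) te) (tb none (tb (some 1) te (tb none (tb (some 2) te (tb none
  (tb (some 1) te (tb none (tz (tu (tb (some 2) (tu (tz (tb (some 2) te te))) te))) (tb none (tb (some 0) te
  (tb none (tz (tu (tb (some 2) te te))) (tb none (tb (some 1) te (tb none (tb (some 2) te (tu (tz (tb (some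
  3) (tu (tz (tb (some 3) (tu (tz (tb (some 3) te te))) te))) te)))) (tz (tb (some 5) te te)))) (tz (tb (some
  3) te te))))) (tz (tb (some 0) (tu (tz (tb (some 0) te te))) te))))) (tz (tb (some 4) (tu (tz (tb (some 4)
  (tu (tz (tb (some 4) te te))) te))) te)))) (tz (tb (some 3) te te)))) (tz (tb (some 0) te te)))))) (tz (tb
  (some 0) (tu (tb none (tb (some 0) te (tb none (tb (some 0) te (tb none (tb (some 0) te (tb none (tz (tu (tb
  (some 0) (tu (tz (tb (some 0) te te))) te))) (tb none (tb (some 2) te (tb none (tz (tu (tb (some 0) te te)))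
  (tb none (tb (some 3) te (tb none (tb (some 0) te (tu (tz (tb (some 1) (tu (tz (tb (some 1) (tu (tz (tb
  (some 1) te te))) te))) te)))) (tz (tb (some 0) te te)))) (tz (tb (some 1) te te))))) (tz (tb (some 2) (tu
  (tz (tb (some 2) te te))) te))))) (tz (tb (some 1) (tu (tz (tb (some 1) (tu (tz (tb (some 1) te te))) te)))
  te)))) (tz (tb (some 2) te te)))) (tz (tb (some 1) te te)))) (tz (tb (some 0) te te))))) (tb none (tz (tu
  (tb (some 1) (tu (tz (tb (some 1) te te))) te))) (tb none (tb (some 1) te (tb none (tz (tu (tb (some 0) te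
  te))) (tb none (tb (some 2) te (tb none (tb (some 1) te (tu (tz (tb (some 0) (tu (tz (tb (some 0) (tu (tz
  (tb (some 0) te te))) te))) te)))) (tz (tb (some 4) te te)))) (tz (tb (some 1) te te))))) (tz (tb (some 0)
  (tu (tz (tb (some 0) te te))) te))))))

end Pool.Agent.Helper701.Duo
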