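import Pool.Agent.Helper701.Duo.Check

set_option autoImplicit false

namespace Pool.Agent.Helper701.Duo

theorem nim_reverse (w : List Bool) : nim w.reverse = nim w := by
  obtain ⟨n, hn⟩ : ∃ n, w.count true = n := ⟨_, rfl⟩
  induction n using Nat.strong_induction_on generalizing w with
  | _ n ih =>
  obtain ⟨h1, h2⟩ := nim_spec w
  apply nim_unique
  · intro v hv
    obtain ⟨w', h3, h4⟩ := h1 v hv
    refine ⟨w'.reverse, h3.reverse, ?_⟩
    rw [ih _ (by have := h3.count_lt; omega) w' rfl, h4]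
  · intro w' h3
    have h4 := h3.reverse
    rw [List.reverse_reverse] at h4
    have h5 := ih _ (by have := h4.count_lt; omega) w'.reverse rfl
    rw [List.reverse_reverse] at h5
    rw [h5]
    exact h2 _ h4

def la (a : ℕ) : List Bool := LA.getD a []
def rc (c : ℕ) : List Bool := RC.getD c []
def lt (a : ℕ) : List (ℕ × ℕ × ℕ) := LT.getD a []
def rt (c : ℕ) : List (ℕ × ℕ × ℕ) := RT.getD c []

/-- `m` copies of the block -/
def rep : ℕ → List Bool
  | 0 => []
  | m + 1 => B ++ rep m

theorem rep_add (i j : ℕ) : rep (i + j) = rep i ++ rep j := by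
  induction i with
  | zero => simp [rep]
  | succ i ih => rw [show i + 1 + j = (i + j) + 1 by ring, rep, rep, ih, List.append_assoc]

theorem rep_succ' (m : ℕ) : rep (m + 1) = rep m ++ B := by
  rw [rep_add]; simp [rep]

def fam (a c m : ℕ) : List Bool := la a ++ (rep m ++ rc c)

/-- options of `A B^(m+1) C` -/
theorem Move_fam {A C w : List Bool} (m : ℕ) :
    Move (A ++ (rep (m + 1) ++ C)) w →
      (∃ u, Move (A ++ B) u ∧ w = u ++ (rep m ++ C)) ∨
      (∃ i k u, i + k + 1 = m ∧ Move (B ++ B) u ∧ w = A ++ (rep i ++ (u ++ (rep k ++ C)))) ∨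
      (∃ u, Move (B ++ C) u ∧ w = A ++ (rep m ++ u)) := by
  induction m generalizing A w with
  | zero =>
    intro h
    have h' : Move (A ++ (B ++ C)) w := by simpa [rep] using h
    rcases (Move_three (by decide)).1 h' with ⟨u, h1, rfl⟩ | ⟨u, h1, rfl⟩
    · left; exact ⟨u, h1, by simp [rep]⟩
    · right; right; exact ⟨u, h1, by simp [rep]⟩
  | succ m ih =>
    intro h
    have h' : Move (A ++ (B ++ (rep (m + 1) ++ C))) w := by
      rw [rep, List.append_assoc] at h; exact h
    rcases (Move_three (by decide)).1 h' with ⟨u, h1, rfl⟩ | ⟨u, h1, rfl⟩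
    · left; exact ⟨u, h1, rfl⟩
    · rcases ih h1 with ⟨u', h2, rfl⟩ | ⟨i, k, u', hik, h2, rfl⟩ | ⟨u', h2, rfl⟩
      · right; left
        exact ⟨0, m, u', by omega, h2, by simp [rep]⟩
      · right; left
        refine ⟨i + 1, k, u', by omega, h2, ?_⟩
        simp [rep]
      · right; right
        refine ⟨u', h2, ?_⟩
        simp [rep]

def leftOK (u : List Bool) (e : ℕ × ℕ × ℕ) : Bool :=
  let q := spl (u.length + 1) [] u
  (xall q.1 == some e.1) && (q.2 == la e.2.1 ++ rep e.2.2) && Nat.blt e.2.1 18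

def rightOK (u : List Bool) (e : ℕ × ℕ × ℕ) : Bool :=
  let q := spl (u.length + 1) [] u.reverse
  (xall (q.1.map List.reverse) == some e.1) && (q.2.reverse == rep e.2.2 ++ rc e.2.1) && Nat.blt e.2.1 14

theorem leftOK_sound {u : List Bool} {e : ℕ × ℕ × ℕ} (h : leftOK u e = true) (z : List Bool) :
    nim (u ++ z) = e.1 ^^^ nim (la e.2.1 ++ (rep e.2.2 ++ z)) ∧
    (la e.2.1 ++ (rep e.2.2 ++ z)).count true ≤ (u ++ z).count true ∧ e.2.1 < 18 := by
  unfold leftOK at h
  simp only [Bool.and_eq_true, beq_iff_eq] at h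
  obtain ⟨⟨h1, h2⟩, h3⟩ := h
  have h4 := spl_nim (u.length + 1) [] u z
  have h5 := spl_cnt (u.length + 1) [] u
  rw [xall_sound h1, h2] at h4
  rw [h2] at h5
  refine ⟨?_, ?_, ?_⟩
  · simpa using h4
  · simp only [List.count_append, List.count_nil] at h5 ⊢
    omega
  · exact Nat.blt_eq.mp h3

theorem nx_rev (l : List (List Bool)) : nx (l.map List.reverse) = nx l := by
  induction l with
  | nil => rfl
  | cons w l ih => rw [List.map_cons, nx, nx, nim_reverse, ih]

theorem rightOK_sound {u : List Bool} {e : ℕ × ℕ × ℕ} (h : rightOK u e = true) (z : List Bool) :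
    nim (z ++ u) = e.1 ^^^ nim (z ++ (rep e.2.2 ++ rc e.2.1)) ∧
    (z ++ (rep e.2.2 ++ rc e.2.1)).count true ≤ (z ++ u).count true ∧ e.2.1 < 14 := by
  unfold rightOK at h
  simp only [Bool.and_eq_true, beq_iff_eq] at h
  obtain ⟨⟨h1, h2⟩, h3⟩ := h
  have h4 := spl_nim (u.length + 1) [] u.reverse z.reverse
  have h5 := spl_cnt (u.length + 1) [] u.reverse
  have h6 := xall_sound h1
  rw [nx_rev] at h6
  rw [h6] at h4
  have h7 : (spl (u.length + 1) [] u.reverse).2 = (rep e.2.2 ++ rc e.2.1).reverse := by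
    rw [← h2, List.reverse_reverse]
  rw [h7] at h4 h5
  refine ⟨?_, ?_, ?_⟩
  · rw [← nim_reverse (z ++ u), ← nim_reverse (z ++ (rep e.2.2 ++ rc e.2.1))]
    simpa using h4
  · simp only [List.count_append, List.count_nil, List.count_reverse] at h5 ⊢
    omega
  · exact Nat.blt_eq.mp h3

def B0 : List Bool := [O, O, I, I, I, O, I, O, I, O]
def BV : List Bool := [I, I, I, O, O, O, I, O, I, O]
def BD : List Bool := [I, I, O, O, O, I, I, O, I, O]
def BX : List Bool := [I, I, O, I, I, O, I, O, I, I, O, O, O, I, I, O, I, O, I, O]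

def leftAll : Bool :=
  (List.range 18).all fun a =>
    (opts (la a ++ B)).all (fun u => (lt a).any (fun e => leftOK u e)) &&
    (lt a).all (fun e => (opts (la a ++ B)).any (fun u => leftOK u e))

def rightAll : Bool :=
  (List.range 14).all fun c =>
    (opts (B ++ rc c)).all (fun u => (u == B0 ++ rc c) || (rt c).any (fun e => rightOK u e)) &&
    (rt c).all (fun e => (opts (B ++ rc c)).any (fun u => rightOK u e))

theorem leftAll_true : leftAll = true := by decide +kernel

theorem rightAll_true : rightAll = true := by decide +kernel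

theorem opts_BB : opts (B ++ B) = [B0 ++ B, BV ++ B, BD ++ B, BX, B ++ B0, B ++ BV, B ++ BD] := by
  decide +kernel

theorem left_opt {a : ℕ} (ha : a < 18) {u : List Bool} (h : Move (la a ++ B) u) :
    ∃ e ∈ lt a, leftOK u e = true := by
  have h1 := leftAll_true
  rw [leftAll, List.all_eq_true] at h1
  have h2 := h1 a (List.mem_range.2 ha)
  rw [Bool.and_eq_true, List.all_eq_true] at h2
  have h3 := h2.1 u (mem_opts.2 h)
  rw [List.any_eq_true] at h3
  exact h3

theorem left_ent {a : ℕ} (ha : a < 18) {e : ℕ × ℕ × ℕ} (h : e ∈ lt a) :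
    ∃ u, Move (la a ++ B) u ∧ leftOK u e = true := by
  have h1 := leftAll_true
  rw [leftAll, List.all_eq_true] at h1
  have h2 := h1 a (List.mem_range.2 ha)
  rw [Bool.and_eq_true] at h2
  have h3 := h2.2
  rw [List.all_eq_true] at h3
  have h4 := h3 e h
  rw [List.any_eq_true] at h4
  obtain ⟨u, h5, h6⟩ := h4
  exact ⟨u, mem_opts.1 h5, h6⟩

theorem right_opt {c : ℕ} (hc : c < 14) {u : List Bool} (h : Move (B ++ rc c) u) :
    u = B0 ++ rc c ∨ ∃ e ∈ rt c, rightOK u e = true := by
  have h1 := rightAll_true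
  rw [rightAll, List.all_eq_true] at h1
  have h2 := h1 c (List.mem_range.2 hc)
  rw [Bool.and_eq_true, List.all_eq_true] at h2
  have h3 := h2.1 u (mem_opts.2 h)
  rw [Bool.or_eq_true, beq_iff_eq, List.any_eq_true] at h3
  exact h3

theorem right_ent {c : ℕ} (hc : c < 14) {e : ℕ × ℕ × ℕ} (h : e ∈ rt c) :
    ∃ u, Move (B ++ rc c) u ∧ rightOK u e = true := by
  have h1 := rightAll_true
  rw [rightAll, List.all_eq_true] at h1
  have h2 := h1 c (List.mem_range.2 hc)
  rw [Bool.and_eq_true] at h2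
  have h3 := h2.2
  rw [List.all_eq_true] at h3
  have h4 := h3 e h
  rw [List.any_eq_true] at h4
  obtain ⟨u, h5, h6⟩ := h4
  exact ⟨u, mem_opts.1 h5, h6⟩

end Pool.Agent.Helper701.Duo
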