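import Pool.Agent.Helper701.Duo.Fam

set_option autoImplicit false

namespace Pool.Agent.Helper701.Duo

theorem nim_V (X Y : List Bool) : nim (X ++ (BV ++ Y)) = nim (X ++ rc 12) ^^^ nim (la 6 ++ Y) := by
  have h := nim_split (X ++ [I, I, I]) ([I, O, I, O] ++ Y)
  simpa [BV, rc, la, RC, LA] using h

theorem nim_D (X Y : List Bool) : nim (X ++ (BD ++ Y)) = nim (X ++ rc 3) ^^^ nim (la 9 ++ Y) := by
  have h := nim_split (X ++ [I, I]) ([I, I, O, I, O] ++ Y)
  simpa [BD, rc, la, RC, LA] using h

theorem nim_X (X Y : List Bool) : nim (X ++ (BX ++ Y)) = nim (X ++ rc 7) ^^^ nim (la 10 ++ Y) := by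
  have h := nim_split (X ++ [I, I, O, I, I, O, I, O, I, I]) ([I, I, O, I, O, I, O] ++ Y)
  simpa [BX, rc, la, RC, LA] using h

theorem nim_E (X Y : List Bool) : nim ((X ++ B) ++ (B0 ++ Y)) = nim ((X ++ B) ++ rc 0) ^^^ nim (la 11 ++ Y) := by
  have h := nim_split (X ++ [I, I, O, I, I, O, I, O, I]) ([I, I, I, O, I, O, I, O] ++ Y)
  simpa [B, B0, rc, la, RC, LA] using h

theorem cnt_V (X Y : List Bool) : (X ++ (BV ++ Y)).count true = (X ++ rc 12).count true + (la 6 ++ Y).count true := by
  simp only [List.count_append]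
  have h1 : List.count true BV = List.count true (rc 12) + List.count true (la 6) := by decide
  omega

theorem cnt_D (X Y : List Bool) : (X ++ (BD ++ Y)).count true = (X ++ rc 3).count true + (la 9 ++ Y).count true := by
  simp only [List.count_append]
  have h1 : List.count true BD = List.count true (rc 3) + List.count true (la 9) := by decide
  omega

theorem cnt_X (X Y : List Bool) : (X ++ (BX ++ Y)).count true = (X ++ rc 7).count true + (la 10 ++ Y).count true := by
  simp only [List.count_append]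
  have h1 : List.count true BX = List.count true (rc 7) + List.count true (la 10) := by decide
  omega

theorem cnt_E (X Y : List Bool) : (X ++ (B0 ++ Y)).count true = (X ++ rc 0).count true + (la 11 ++ Y).count true := by
  simp only [List.count_append]
  have h1 : List.count true B0 = List.count true (rc 0) + List.count true (la 11) := by decide
  omega

def val (a c m : ℕ) : ℕ :=
  if a = 12 then
    (if m = 0 then (GR.getD c []).getD 0 0
     else 8 * ((m - 1) / 4) + (GR.getD c []).getD (1 + (m - 1) % 4) 0)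
  else ((TB.getD a []).getD c []).getD (min m 2) 0

/-- the nim-values of the options of `fam a c (m + 1)` -/
def OV (a c m : ℕ) : List ℕ :=
  (lt a).map (fun e => e.1 ^^^ val e.2.1 c (m + e.2.2)) ++
  (rt c).map (fun e => e.1 ^^^ val a e.2.1 (m + e.2.2)) ++
  (List.range (m + 1)).map (fun i => val a 12 i ^^^ val 6 c (m - i)) ++
  (List.range (m + 1)).map (fun i => val a 3 i ^^^ val 9 c (m - i)) ++
  (List.range m).map (fun i => val a 7 i ^^^ val 10 c (m - 1 - i)) ++
  (List.range m).map (fun i => val a 0 (i + 1) ^^^ val 11 c (m - 1 - i))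

theorem mem_OV {a c m v : ℕ} : v ∈ OV a c m ↔
    (∃ e ∈ lt a, e.1 ^^^ val e.2.1 c (m + e.2.2) = v) ∨
    (∃ e ∈ rt c, e.1 ^^^ val a e.2.1 (m + e.2.2) = v) ∨
    (∃ i k, i + k = m ∧ val a 12 i ^^^ val 6 c k = v) ∨
    (∃ i k, i + k = m ∧ val a 3 i ^^^ val 9 c k = v) ∨
    (∃ i k, i + k + 1 = m ∧ val a 7 i ^^^ val 10 c k = v) ∨
    (∃ i k, i + k + 1 = m ∧ val a 0 (i + 1) ^^^ val 11 c k = v) := by
  unfold OV
  simp only [List.mem_append, List.mem_map, List.mem_range, or_assoc]
  have hA : ∀ f : ℕ → ℕ → ℕ, (∃ i, i < m + 1 ∧ f i (m - i) = v) ↔ ∃ i k, i + k = m ∧ f i k = v := by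
    intro f
    constructor
    · rintro ⟨i, hi, h⟩
      exact ⟨i, m - i, by omega, h⟩
    · rintro ⟨i, k, hik, h⟩
      refine ⟨i, by omega, ?_⟩
      rwa [show m - i = k by omega]
  have hB : ∀ f : ℕ → ℕ → ℕ, (∃ i, i < m ∧ f i (m - 1 - i) = v) ↔ ∃ i k, i + k + 1 = m ∧ f i k = v := by
    intro f
    constructor
    · rintro ⟨i, hi, h⟩
      exact ⟨i, m - 1 - i, by omega, h⟩
    · rintro ⟨i, k, hik, h⟩
      refine ⟨i, by omega, ?_⟩
      rwa [show m - 1 - i = k by omega]
  rw [hA (fun i k => val a 12 i ^^^ val 6 c k), hA (fun i k => val a 3 i ^^^ val 9 c k),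
    hB (fun i k => val a 7 i ^^^ val 10 c k), hB (fun i k => val a 0 (i + 1) ^^^ val 11 c k)]

theorem Move_BV : Move B BV := mem_opts.1 (by decide)
theorem Move_BD : Move B BD := mem_opts.1 (by decide)
theorem Move_B0 : Move B B0 := mem_opts.1 (by decide)
theorem Move_BX : Move (B ++ B) BX := mem_opts.1 (by decide)

section
variable {n : ℕ} (IH : ∀ a c m, a < 18 → c < 14 → (fam a c m).count true < n → nim (fam a c m) = val a c m)
variable {a c : ℕ} (ha : a < 18) (hc : c < 14)

include IH ha hc

theorem val_V {i k : ℕ} (h : (la a ++ (rep i ++ (BV ++ (rep k ++ rc c)))).count true < n) :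
    nim (la a ++ (rep i ++ (BV ++ (rep k ++ rc c)))) = val a 12 i ^^^ val 6 c k := by
  have h1 := nim_V (la a ++ rep i) (rep k ++ rc c)
  have h2 := cnt_V (la a ++ rep i) (rep k ++ rc c)
  rw [List.append_assoc, List.append_assoc] at h1 h2
  rw [h1]
  have h3 := IH a 12 i ha (by norm_num) (by unfold fam; omega)
  have h4 := IH 6 c k (by norm_num) hc (by unfold fam; omega)
  unfold fam at h3 h4
  rw [h3, h4]

theorem val_D {i k : ℕ} (h : (la a ++ (rep i ++ (BD ++ (rep k ++ rc c)))).count true < n) :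
    nim (la a ++ (rep i ++ (BD ++ (rep k ++ rc c)))) = val a 3 i ^^^ val 9 c k := by
  have h1 := nim_D (la a ++ rep i) (rep k ++ rc c)
  have h2 := cnt_D (la a ++ rep i) (rep k ++ rc c)
  rw [List.append_assoc, List.append_assoc] at h1 h2
  rw [h1]
  have h3 := IH a 3 i ha (by norm_num) (by unfold fam; omega)
  have h4 := IH 9 c k (by norm_num) hc (by unfold fam; omega)
  unfold fam at h3 h4
  rw [h3, h4]

theorem val_X {i k : ℕ} (h : (la a ++ (rep i ++ (BX ++ (rep k ++ rc c)))).count true < n) :
    nim (la a ++ (rep i ++ (BX ++ (rep k ++ rc c)))) = val a 7 i ^^^ val 10 c k := by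
  have h1 := nim_X (la a ++ rep i) (rep k ++ rc c)
  have h2 := cnt_X (la a ++ rep i) (rep k ++ rc c)
  rw [List.append_assoc, List.append_assoc] at h1 h2
  rw [h1]
  have h3 := IH a 7 i ha (by norm_num) (by unfold fam; omega)
  have h4 := IH 10 c k (by norm_num) hc (by unfold fam; omega)
  unfold fam at h3 h4
  rw [h3, h4]

theorem val_E {i k : ℕ} (h : (la a ++ (rep (i + 1) ++ (B0 ++ (rep k ++ rc c)))).count true < n) :
    nim (la a ++ (rep (i + 1) ++ (B0 ++ (rep k ++ rc c)))) = val a 0 (i + 1) ^^^ val 11 c k := by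
  have h1 := nim_E (la a ++ rep i) (rep k ++ rc c)
  have h2 := cnt_E (la a ++ rep (i + 1)) (rep k ++ rc c)
  have h5 : la a ++ rep i ++ B = la a ++ rep (i + 1) := by rw [rep_succ', List.append_assoc]
  rw [h5] at h1
  rw [List.append_assoc, List.append_assoc] at h1 h2
  rw [h1]
  have h3 := IH a 0 (i + 1) ha (by norm_num) (by unfold fam; omega)
  have h4 := IH 11 c k (by norm_num) hc (by unfold fam; omega)
  unfold fam at h3 h4
  rw [h3, h4]

theorem val_left {m : ℕ} {u : List Bool} (hu : Move (la a ++ B) u)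
    (h : (u ++ (rep m ++ rc c)).count true < n) : nim (u ++ (rep m ++ rc c)) ∈ OV a c m := by
  obtain ⟨e, he, hok⟩ := left_opt ha hu
  obtain ⟨h1, h2, h3⟩ := leftOK_sound hok (rep m ++ rc c)
  rw [h1, mem_OV]
  left
  refine ⟨e, he, ?_⟩
  have h4 : la e.2.1 ++ (rep e.2.2 ++ (rep m ++ rc c)) = fam e.2.1 c (m + e.2.2) := by
    rw [fam, add_comm, rep_add, List.append_assoc]
  rw [h4] at h2 ⊢
  rw [IH _ c _ h3 hc (by omega)]

theorem val_right {m : ℕ} {u : List Bool} (hu : Move (B ++ rc c) u)
    (h : (la a ++ (rep m ++ u)).count true < n) : nim (la a ++ (rep m ++ u)) ∈ OV a c m := by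
  rcases right_opt hc hu with rfl | ⟨e, he, hok⟩
  · cases m with
    | zero =>
      have h1 : Move (la a ++ B) (la a ++ B0) := Move_append_right _ Move_B0
      have h2 := val_left IH ha hc (m := 0) h1 (by simpa [rep] using h)
      simpa [rep] using h2
    | succ m =>
      have h2 := val_E IH ha hc (i := m) (k := 0) (by simpa [rep] using h)
      rw [mem_OV]
      right; right; right; right; right
      refine ⟨m, 0, by omega, ?_⟩
      rw [← h2]
      simp [rep]
  · obtain ⟨h1, h2, h3⟩ := rightOK_sound hok (la a ++ rep m)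
    rw [List.append_assoc] at h1
    rw [h1, mem_OV]
    right; left
    refine ⟨e, he, ?_⟩
    have h4 : la a ++ rep m ++ (rep e.2.2 ++ rc e.2.1) = fam a e.2.1 (m + e.2.2) := by
      rw [fam, rep_add]; simp
    rw [h4] at h2 ⊢
    rw [List.append_assoc] at h2
    rw [IH a _ _ ha h3 (by omega)]

theorem options_in {m : ℕ} {w : List Bool} (hw : Move (fam a c (m + 1)) w) (hn : w.count true < n) :
    nim w ∈ OV a c m := by
  rcases Move_fam m hw with ⟨u, h1, rfl⟩ | ⟨i, k, u, hik, h1, rfl⟩ | ⟨u, h1, rfl⟩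
  · exact val_left IH ha hc h1 hn
  · have h2 := mem_opts.2 h1
    rw [opts_BB] at h2
    simp only [List.mem_cons, List.not_mem_nil, or_false] at h2
    rcases h2 with rfl | rfl | rfl | rfl | rfl | rfl | rfl
    · cases i with
      | zero =>
        have h3 : Move (la a ++ B) (la a ++ B0) := Move_append_right _ Move_B0
        have h5 : la a ++ B0 ++ (rep m ++ rc c) = la a ++ (rep 0 ++ (B0 ++ B ++ (rep k ++ rc c))) := by
          rw [← hik, show 0 + k + 1 = k + 1 by ring, rep, rep]; simp
        have h4 := val_left IH ha hc (m := m) h3 (by rw [h5]; exact hn)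
        rw [← h5]
        exact h4
      | succ i =>
        have h5 : la a ++ (rep (i + 1) ++ (B0 ++ B ++ (rep k ++ rc c))) =
            la a ++ (rep (i + 1) ++ (B0 ++ (rep (k + 1) ++ rc c))) := by
          rw [show rep (k + 1) = B ++ rep k from rfl]; simp
        rw [h5] at hn ⊢
        rw [val_E IH ha hc hn, mem_OV]
        right; right; right; right; right
        exact ⟨i, k + 1, by omega, rfl⟩
    · have h5 : la a ++ (rep i ++ (BV ++ B ++ (rep k ++ rc c))) =
          la a ++ (rep i ++ (BV ++ (rep (k + 1) ++ rc c))) := by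
        rw [show rep (k + 1) = B ++ rep k from rfl]; simp
      rw [h5] at hn ⊢
      rw [val_V IH ha hc hn, mem_OV]
      right; right; left
      exact ⟨i, k + 1, by omega, rfl⟩
    · have h5 : la a ++ (rep i ++ (BD ++ B ++ (rep k ++ rc c))) =
          la a ++ (rep i ++ (BD ++ (rep (k + 1) ++ rc c))) := by
        rw [show rep (k + 1) = B ++ rep k from rfl]; simp
      rw [h5] at hn ⊢
      rw [val_D IH ha hc hn, mem_OV]
      right; right; right; left
      exact ⟨i, k + 1, by omega, rfl⟩
    · rw [val_X IH ha hc hn, mem_OV]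
      right; right; right; right; left
      exact ⟨i, k, by omega, rfl⟩
    · have h5 : la a ++ (rep i ++ (B ++ B0 ++ (rep k ++ rc c))) =
          la a ++ (rep (i + 1) ++ (B0 ++ (rep k ++ rc c))) := by
        rw [rep_succ']; simp
      rw [h5] at hn ⊢
      rw [val_E IH ha hc hn, mem_OV]
      right; right; right; right; right
      exact ⟨i, k, by omega, rfl⟩
    · have h5 : la a ++ (rep i ++ (B ++ BV ++ (rep k ++ rc c))) =
          la a ++ (rep (i + 1) ++ (BV ++ (rep k ++ rc c))) := by
        rw [rep_succ']; simp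
      rw [h5] at hn ⊢
      rw [val_V IH ha hc hn, mem_OV]
      right; right; left
      exact ⟨i + 1, k, by omega, rfl⟩
    · have h5 : la a ++ (rep i ++ (B ++ BD ++ (rep k ++ rc c))) =
          la a ++ (rep (i + 1) ++ (BD ++ (rep k ++ rc c))) := by
        rw [rep_succ']; simp
      rw [h5] at hn ⊢
      rw [val_D IH ha hc hn, mem_OV]
      right; right; right; left
      exact ⟨i + 1, k, by omega, rfl⟩
  · exact val_right IH ha hc h1 hn

theorem options_all {m v : ℕ} (hn : (fam a c (m + 1)).count true ≤ n) (hv : v ∈ OV a c m) :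
    ∃ w, Move (fam a c (m + 1)) w ∧ nim w = v := by
  rw [mem_OV] at hv
  rcases hv with ⟨e, he, rfl⟩ | ⟨e, he, rfl⟩ | ⟨i, k, hik, rfl⟩ | ⟨i, k, hik, rfl⟩ | ⟨i, k, hik, rfl⟩ | ⟨i, k, hik, rfl⟩
  · obtain ⟨u, h1, hok⟩ := left_ent ha he
    obtain ⟨h2, h3, h4⟩ := leftOK_sound hok (rep m ++ rc c)
    have h5 : Move (fam a c (m + 1)) (u ++ (rep m ++ rc c)) := by
      have := Move_append_left (rep m ++ rc c) h1
      rw [fam, rep]
      simpa using this
    refine ⟨_, h5, ?_⟩
    have h6 : la e.2.1 ++ (rep e.2.2 ++ (rep m ++ rc c)) = fam e.2.1 c (m + e.2.2) := by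
      rw [fam, add_comm, rep_add, List.append_assoc]
    rw [h2]
    rw [h6] at h3 ⊢
    have h7 := h5.count_lt
    rw [IH _ c _ h4 hc (by omega)]
  · obtain ⟨u, h1, hok⟩ := right_ent hc he
    obtain ⟨h2, h3, h4⟩ := rightOK_sound hok (la a ++ rep m)
    have h5 : Move (fam a c (m + 1)) (la a ++ rep m ++ u) := by
      have := Move_append_right (la a ++ rep m) h1
      rw [fam, rep_succ']
      simpa using this
    refine ⟨_, h5, ?_⟩
    have h6 : la a ++ rep m ++ (rep e.2.2 ++ rc e.2.1) = fam a e.2.1 (m + e.2.2) := by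
      rw [fam, rep_add]; simp
    rw [h2]
    rw [h6] at h3 ⊢
    have h7 := h5.count_lt
    rw [IH a _ _ ha h4 (by omega)]
  · have h5 : Move (fam a c (m + 1)) (la a ++ (rep i ++ (BV ++ (rep k ++ rc c)))) := by
      have := Move_append_right (la a ++ rep i) (Move_append_left (rep k ++ rc c) Move_BV)
      rw [fam, show m + 1 = i + (k + 1) by omega, rep_add, rep]
      simpa using this
    refine ⟨_, h5, ?_⟩
    have h7 := h5.count_lt
    exact val_V IH ha hc (by omega)
  · have h5 : Move (fam a c (m + 1)) (la a ++ (rep i ++ (BD ++ (rep k ++ rc c)))) := by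
      have := Move_append_right (la a ++ rep i) (Move_append_left (rep k ++ rc c) Move_BD)
      rw [fam, show m + 1 = i + (k + 1) by omega, rep_add, rep]
      simpa using this
    refine ⟨_, h5, ?_⟩
    have h7 := h5.count_lt
    exact val_D IH ha hc (by omega)
  · have h5 : Move (fam a c (m + 1)) (la a ++ (rep i ++ (BX ++ (rep k ++ rc c)))) := by
      have := Move_append_right (la a ++ rep i) (Move_append_left (rep k ++ rc c) Move_BX)
      rw [fam, show m + 1 = i + (k + 1 + 1) by omega, rep_add, rep, rep]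
      simpa using this
    refine ⟨_, h5, ?_⟩
    have h7 := h5.count_lt
    exact val_X IH ha hc (by omega)
  · have h5 : Move (fam a c (m + 1)) (la a ++ (rep (i + 1) ++ (B0 ++ (rep k ++ rc c)))) := by
      have := Move_append_right (la a ++ rep (i + 1)) (Move_append_left (rep k ++ rc c) Move_B0)
      rw [fam, show m + 1 = (i + 1) + (k + 1) by omega, rep_add, rep]
      simpa [rep] using this
    refine ⟨_, h5, ?_⟩
    have h7 := h5.count_lt
    exact val_E IH ha hc (by omega)

end

end Pool.Agent.Helper701.Duo
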