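import Pool.Agent.Helper701.Duo.Base

set_option autoImplicit false

namespace Pool.Agent.Helper701.Duo

/-- Fibonacci weight of the pegs, first cell has index `i` -/
def wR (i : ℕ) : List Bool → ℕ
  | [] => 0
  | a :: t => (if a then Nat.fib i else 0) + wR (i + 1) t

theorem wR_append (i : ℕ) (x y : List Bool) : wR i (x ++ y) = wR i x + wR (i + x.length) y := by
  induction x generalizing i with
  | nil => simp [wR]
  | cons a t ih =>
    rw [List.cons_append, wR, wR, ih, List.length_cons]
    rw [show i + 1 + t.length = i + (t.length + 1) by ring]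
    ring

theorem wR_le (i : ℕ) (x : List Bool) : wR i x + Nat.fib (i + 1) ≤ Nat.fib (i + 1 + x.length) := by
  induction x generalizing i with
  | nil => simp [wR]
  | cons a t ih =>
    have h1 := ih (i + 1)
    have h2 : Nat.fib (i + 1 + 1) = Nat.fib i + Nat.fib (i + 1) := Nat.fib_add_two
    rw [wR, List.length_cons, show i + 1 + (t.length + 1) = i + 1 + 1 + t.length by ring]
    cases a <;> simp <;> omega

theorem wR_move {w w' : List Bool} (h : Move w w') (i : ℕ) : wR i w' ≤ wR i w := by
  obtain ⟨u, v, ⟨rfl, rfl⟩ | ⟨rfl, rfl⟩⟩ := h
  · simp only [wR_append, List.length_append, List.length_cons, List.length_nil]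
    have h2 : Nat.fib (i + u.length + 1 + 1) = Nat.fib (i + u.length) + Nat.fib (i + u.length + 1) := Nat.fib_add_two
    simp only [wR]
    simp
    omega
  · simp only [wR_append, List.length_append, List.length_cons, List.length_nil]
    have h2 : Nat.fib (i + u.length + 1 + 1) = Nat.fib (i + u.length) + Nat.fib (i + u.length + 1) := Nat.fib_add_two
    simp only [wR]
    simp
    omega

theorem Move.length_eq {w w' : List Bool} (h : Move w w') : w'.length = w.length := by
  obtain ⟨u, v, ⟨rfl, rfl⟩ | ⟨rfl, rfl⟩⟩ := h <;> simp

/-- right-safe words: the last two cells can never both become occupied -/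
def RS (x : List Bool) : Prop := wR 1 x < Nat.fib (x.length + 1)

theorem RS.move {x x' : List Bool} (h : RS x) (hm : Move x x') : RS x' := by
  unfold RS at *
  rw [hm.length_eq]
  exact lt_of_le_of_lt (wR_move hm 1) h

theorem RS.no_finish {x : List Bool} (h : RS x) (s : List Bool) : x ≠ s ++ [true, true] := by
  rintro rfl
  unfold RS at h
  rw [wR_append] at h
  simp only [wR, List.length_append, List.length_cons, List.length_nil, if_true] at h
  have h2 : Nat.fib (1 + s.length + 2) = Nat.fib (1 + s.length) + Nat.fib (1 + s.length + 1) := Nat.fib_add_two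
  rw [show s.length + (0 + 1 + 1) + 1 = 1 + s.length + 2 by ring] at h
  omega

theorem RS_snoc (s : List Bool) : RS (s ++ [false]) := by
  unfold RS
  rw [wR_append]
  simp only [wR, List.length_append, List.length_cons, List.length_nil]
  have h : wR 1 s + Nat.fib 2 ≤ Nat.fib (2 + s.length) := wR_le 1 s
  have h2 : Nat.fib 2 = 1 := rfl
  rw [show s.length + (0 + 1) + 1 = 2 + s.length by ring]
  simp
  omega

theorem RS_nil : RS [] := by simp [RS, wR]

theorem Move.reverse {w w' : List Bool} (h : Move w w') : Move w.reverse w'.reverse := by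
  obtain ⟨u, v, ⟨rfl, rfl⟩ | ⟨rfl, rfl⟩⟩ := h
  · exact ⟨v.reverse, u.reverse, Or.inr ⟨by simp, by simp⟩⟩
  · exact ⟨v.reverse, u.reverse, Or.inl ⟨by simp, by simp⟩⟩

/-- left-safe words -/
def LS (y : List Bool) : Prop := RS y.reverse

theorem LS.move {x x' : List Bool} (h : LS x) (hm : Move x x') : LS x' := RS.move h hm.reverse

theorem LS.no_start {x : List Bool} (h : LS x) (s : List Bool) : x ≠ true :: true :: s := by
  rintro rfl
  exact RS.no_finish h s.reverse (by simp)

theorem LS_cons (s : List Bool) : LS (false :: s) := by
  unfold LS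
  rw [List.reverse_cons]
  exact RS_snoc _

theorem LS_nil : LS [] := by
  unfold LS; exact RS_nil

theorem Move_mid {x y w : List Bool} (hx : ∀ s, x ≠ s ++ [true, true]) (hy : ∀ s, y ≠ true :: true :: s) :
    Move (x ++ false :: y) w ↔ (∃ x', Move x x' ∧ w = x' ++ false :: y) ∨
      ∃ y', Move y y' ∧ w = x ++ false :: y' := by
  constructor
  · induction x generalizing w with
    | nil =>
      intro h
      rw [List.nil_append, Move_cons] at h
      rcases h with h | ⟨t', h, rfl⟩
      · exfalso
        match y, hy, h with
        | [], _, h => simp [hd] at h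
        | [a], _, h => cases a <;> simp [hd] at h
        | a :: b :: r, hy, h =>
          cases a <;> cases b <;> simp [hd] at h
          exact hy r rfl
      · right
        exact ⟨t', h, rfl⟩
    | cons a x ih =>
      intro h
      rw [List.cons_append, Move_cons] at h
      rcases h with h | ⟨t', h, rfl⟩
      · match x, h with
        | [], h => cases a <;> simp [hd] at h
        | [b], h =>
          cases a <;> cases b <;> simp [hd] at h
          exact absurd rfl (hx [])
        | b :: c :: r, h =>
          left
          rw [show a :: (b :: c :: r ++ false :: y) = (a :: b :: c :: r) ++ false :: y by simp,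
            hd_append (by simp)] at h
          obtain ⟨u, h1, rfl⟩ := List.mem_map.1 h
          exact ⟨u, Move_cons.2 (Or.inl h1), rfl⟩
      · have hx' : ∀ s, x ≠ s ++ [true, true] := by
          rintro s rfl
          exact hx (a :: s) rfl
        rcases ih hx' h with ⟨x', h1, rfl⟩ | ⟨y', h1, rfl⟩
        · left
          exact ⟨a :: x', Move_cons.2 (Or.inr ⟨x', h1, rfl⟩), rfl⟩
        · right
          exact ⟨y', h1, rfl⟩
  · rintro (⟨x', h, rfl⟩ | ⟨y', h, rfl⟩)
    · exact Move_append_left _ h
    · have := Move_append_right (x ++ [false]) h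
      simpa using this

/-- decomposition of a strip at a cell that is never reached -/
theorem nim_mid {x y : List Bool} (hx : RS x) (hy : LS y) :
    nim (x ++ false :: y) = nim x ^^^ nim y := by
  obtain ⟨n, hn⟩ : ∃ n, (x ++ false :: y).count true = n := ⟨_, rfl⟩
  induction n using Nat.strong_induction_on generalizing x y with
  | _ n ih =>
  have hmid := fun w => Move_mid (w := w) (hx.no_finish) (hy.no_start)
  have e1 : ∀ x', Move x x' → nim (x' ++ false :: y) = nim x' ^^^ nim y := by
    intro x' h
    refine ih _ ?_ (hx.move h) hy rfl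
    have := h.count_lt
    simp only [List.count_append] at hn ⊢
    omega
  have e2 : ∀ y', Move y y' → nim (x ++ false :: y') = nim x ^^^ nim y' := by
    intro y' h
    refine ih _ ?_ hx (hy.move h) rfl
    have := h.count_lt
    simp only [List.count_append, List.count_cons] at hn ⊢
    omega
  apply nim_unique
  · intro v hv
    rcases Nat.lt_xor_cases hv with h | h
    · obtain ⟨x', h1, h2⟩ := (nim_spec x).1 _ h
      refine ⟨_, (hmid _).2 (Or.inl ⟨x', h1, rfl⟩), ?_⟩
      rw [e1 x' h1, h2, Nat.xor_assoc, Nat.xor_self, Nat.xor_zero]
    · obtain ⟨y', h1, h2⟩ := (nim_spec y).1 _ h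
      refine ⟨_, (hmid _).2 (Or.inr ⟨y', h1, rfl⟩), ?_⟩
      rw [e2 y' h1, h2, Nat.xor_comm v, ← Nat.xor_assoc, Nat.xor_self, Nat.zero_xor]
  · intro w' h
    rcases (hmid _).1 h with ⟨x', h1, rfl⟩ | ⟨y', h1, rfl⟩
    · rw [e1 x' h1]
      intro h2
      exact (nim_spec x).2 x' h1 (Nat.xor_left_injective h2)
    · rw [e2 y' h1]
      intro h2
      exact (nim_spec y).2 y' h1 (Nat.xor_right_injective h2)

/-- splitting at three consecutive empty cells -/
theorem nim_split (x y : List Bool) :
    nim (x ++ false :: false :: false :: y) = nim (x ++ [false]) ^^^ nim (false :: y) := by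
  have := nim_mid (RS_snoc x) (LS_cons y)
  simpa using this

theorem nim_nil : nim [] = 0 := by
  apply nim_unique
  · intro v hv; omega
  · intro w' h
    exact absurd h.count_lt (by simp)

theorem nim_trim_left (y : List Bool) : nim (false :: false :: y) = nim (false :: y) := by
  have := nim_mid RS_nil (LS_cons y)
  simpa [nim_nil] using this

theorem nim_trim_right (x : List Bool) : nim (x ++ [false, false]) = nim (x ++ [false]) := by
  have := nim_mid (RS_snoc x) LS_nil
  simpa [nim_nil] using this

theorem nim_few {w : List Bool} (h : w.count true ≤ 1) : nim w = 0 := by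
  apply nim_unique
  · intro v hv; omega
  · rintro w' ⟨u, v, ⟨rfl, -⟩ | ⟨rfl, -⟩⟩
    · exfalso
      simp only [List.count_append] at h
      have h1 : List.count true [true, true, false] = 2 := by decide
      omega
    · exfalso
      simp only [List.count_append] at h
      have h1 : List.count true [false, true, true] = 2 := by decide
      omega

end Pool.Agent.Helper701.Duo
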